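import Pool.Agent.Q55.NN.Qf

/-! # Bounds for the Gram matrices -/

set_option autoImplicit false

namespace Pool.Agent.Q55.NN

open Matrix Module Pool.Agent.Q55.SF H842

variable {n : ℕ}

namespace Setup

variable (s : Setup n) {L : AddSubgroup (Fin n → ℚ)} {k : ℕ} (ω : Basis (Fin k) ℚ s.E)

/-- real combinations of the basis -/
noncomputable def rc (a : Fin k → ℝ) : Matrix (Fin n) (Fin n) ℝ :=
  ∑ i, a i • (ω i).1.map (algebraMap ℚ ℝ)

theorem dot_sum (M : Matrix (Fin k) (Fin k) ℝ) (a b : Fin k → ℝ) :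
    a ⬝ᵥ M *ᵥ b = ∑ i, ∑ j, a i * b j * M i j := by
  unfold dotProduct Matrix.mulVec dotProduct
  refine Finset.sum_congr rfl fun i _ => ?_
  rw [Finset.mul_sum]
  exact Finset.sum_congr rfl fun j _ => by ring

theorem gram_real {R : Matrix (Fin n) (Fin n) ℝ}
    (hR : s.K₀.map (algebraMap ℚ ℝ) = s.C * (R.transpose * R)) (J : Matrix (Fin n) (Fin n) ℚ)
    {w : Matrix (Fin n) (Fin n) ℚ} (hw : w ∈ s.E) (a b : Fin k → ℝ) :
    a ⬝ᵥ (s.gram ω J w).map (algebraMap ℚ ℝ) *ᵥ b =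
      qf (R.transpose * R) (J.map (algebraMap ℚ ℝ) * s.C) (s.rc ω a)
        (s.rc ω b * w.map (algebraMap ℚ ℝ)) := by
  have h1 : s.rc ω b * w.map (algebraMap ℚ ℝ) =
      ∑ j, b j • ((ω j).1 * w).map (algebraMap ℚ ℝ) := by
    unfold rc
    rw [Matrix.sum_mul]
    refine Finset.sum_congr rfl fun j _ => ?_
    rw [Matrix.smul_mul, Matrix.map_mul]
  rw [h1, dot_sum]
  unfold rc
  rw [qf_sum]
  refine Finset.sum_congr rfl fun i _ => Finset.sum_congr rfl fun j _ => ?_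
  congr 1
  rw [← s.qf_real hR _ _ _ (s.comm _ (s.E.mul_mem (ω j).2 hw)), ← qf_map]
  rfl

theorem real_symm {J : Matrix (Fin n) (Fin n) ℚ} (hJ : (J.map (algebraMap ℚ ℝ) * s.C).PosDef)
    (R x y : Matrix (Fin n) (Fin n) ℝ) :
    qf (R.transpose * R) (J.map (algebraMap ℚ ℝ) * s.C) x y =
      qf (R.transpose * R) (J.map (algebraMap ℚ ℝ) * s.C) y x := by
  refine qf_symm _ _ _ _ ?_ ?_
  · rw [transpose_mul, transpose_transpose]
  · have h := hJ.isHermitian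
    unfold Matrix.IsHermitian at h
    rwa [Matrix.conjTranspose_eq_transpose_of_trivial] at h

theorem amgm {S : Matrix (Fin n) (Fin n) ℝ} (hS : S.PosDef) (R x z : Matrix (Fin n) (Fin n) ℝ)
    (hsy : qf (R.transpose * R) S x z = qf (R.transpose * R) S z x) :
    |qf (R.transpose * R) S x z| ≤
      (qf (R.transpose * R) S x x + qf (R.transpose * R) S z z) / 2 := by
  have h1 : 0 ≤ qf (R.transpose * R) S (x + z) (x + z) := trace_nonneg hS R _
  have h2 : 0 ≤ qf (R.transpose * R) S (x + -z) (x + -z) := trace_nonneg hS R _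
  rw [qf_add_left, qf_add_right, qf_add_right] at h1 h2
  rw [qf_neg_left, qf_neg_left, qf_neg_right, qf_neg_right] at h2
  rw [abs_le]
  constructor <;> linarith

theorem rc_ratCast (x : s.E) :
    s.rc ω (fun i => algebraMap ℚ ℝ (ω.equivFun x i)) = x.1.map (algebraMap ℚ ℝ) := by
  conv_rhs => rw [s.coe_sum ω x]
  unfold rc
  ext a b
  rw [Matrix.map_apply, Matrix.sum_apply, Matrix.sum_apply, map_sum]
  refine Finset.sum_congr rfl fun i _ => ?_
  rw [Matrix.smul_apply, Matrix.smul_apply, smul_eq_mul, smul_eq_mul, map_mul, Matrix.map_apply]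

theorem gram_det_ne {J : Matrix (Fin n) (Fin n) ℚ} (hJ : (J.map (algebraMap ℚ ℝ) * s.C).PosDef) :
    (s.gram ω J 1).det ≠ 0 := by
  intro h
  obtain ⟨v, hv, hv0⟩ := Matrix.exists_mulVec_eq_zero_iff.mpr h
  have h1 := s.qf_gram ω J 1 (ω.equivFun.symm v) (ω.equivFun.symm v)
  rw [LinearEquiv.apply_symm_apply, hv0, dotProduct_zero, Matrix.mul_one] at h1
  have h2 := s.qf_eq_zero hJ (ω.equivFun.symm v).2 h1
  have h3 : ω.equivFun.symm v = 0 := Subtype.ext h2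
  exact hv ((LinearEquiv.map_eq_zero_iff _).mp h3)

theorem gram_pd {J : Matrix (Fin n) (Fin n) ℚ} (hJ : (J.map (algebraMap ℚ ℝ) * s.C).PosDef) :
    PD ((s.gram ω J 1).map (algebraMap ℚ ℝ)) := by
  obtain ⟨R, R', h1, h2, h3⟩ := s.exists_R
  have hone : (1 : Matrix (Fin n) (Fin n) ℚ) ∈ s.E := s.E.one_mem
  have hg : ∀ a b : Fin k → ℝ, a ⬝ᵥ (s.gram ω J 1).map (algebraMap ℚ ℝ) *ᵥ b =
      qf (R.transpose * R) (J.map (algebraMap ℚ ℝ) * s.C) (s.rc ω a) (s.rc ω b) := by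
    intro a b
    rw [s.gram_real ω h3 J hone, Matrix.map_one _ (map_zero _) (map_one _), Matrix.mul_one]
  constructor
  · intro i j
    have h4 := hg (Pi.single i 1) (Pi.single j 1)
    have h5 := hg (Pi.single j 1) (Pi.single i 1)
    rw [single_dotProduct, one_mul, Matrix.mulVec_single_one, Matrix.col_apply] at h4 h5
    rw [h4, h5, s.real_symm hJ]
  · intro x hx
    have h4 : 0 ≤ x ⬝ᵥ (s.gram ω J 1).map (algebraMap ℚ ℝ) *ᵥ x := by
      rw [hg]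
      exact trace_nonneg hJ R _
    refine lt_of_le_of_ne h4 fun h5 => ?_
    rw [hg] at h5
    have h6 := trace_zero hJ R R' _ h2 h5.symm
    have h7 : (s.gram ω J 1).map (algebraMap ℚ ℝ) *ᵥ x = 0 := by
      funext j
      have h8 := hg (Pi.single j 1) x
      rw [single_dotProduct, one_mul, h6] at h8
      rw [h8]
      unfold qf
      rw [Matrix.mul_zero, Matrix.trace_zero]
      rfl
    have h9 : ((s.gram ω J 1).map (algebraMap ℚ ℝ)).det ≠ 0 := by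
      have h10 : ((s.gram ω J 1).map (algebraMap ℚ ℝ)).det = algebraMap ℚ ℝ (s.gram ω J 1).det :=
        (RingHom.map_det (algebraMap ℚ ℝ) _).symm
      rw [h10]
      exact (map_ne_zero _).mpr (s.gram_det_ne ω hJ)
    exact h9 (Matrix.exists_mulVec_eq_zero_iff.mp ⟨x, hx, h7⟩)

/-- common denominators -/
theorem gram_int (hω : ∀ x : s.E, (∀ v ∈ L, x.1 *ᵥ v ∈ L) ↔ ∀ i, ∃ z : ℤ, (z : ℚ) = ω.repr x i)
    (c₁ c₂ : ℕ) (hc₁ : 0 < c₁) {r : ℕ} (W : Fin r → Matrix (Fin n) (Fin n) ℚ) :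
    ∃ c : ℕ, 0 < c ∧ ∀ J, s.Cond L c₁ c₂ J → ∀ a i j, ∃ z : ℤ,
      (z : ℚ) = c * s.gram ω J (W a) i j := by
  obtain ⟨d, hd, A', hA'⟩ := exists_den (Matrix.of fun (p : Fin k × Fin k) (q : Fin r × Fin k) =>
    qf s.K₀ s.J₀ (ω p.1).1 ((ω q.2).1 * ((ω p.2).1 * W q.1)))
  refine ⟨c₁ * d, Nat.mul_pos hc₁ hd, fun J hJ a i j => ?_⟩
  let x : s.E := ⟨c₁ • (s.K₀ * J), s.E.nsmul_mem hJ.mem c₁⟩
  have hx : ∀ v ∈ L, x.1 *ᵥ v ∈ L := by
    intro v hv
    have h := hJ.fwd v hv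
    have e : x.1 *ᵥ v = c₁ • ((s.K₀ * J) *ᵥ v) := by
      change (c₁ • (s.K₀ * J)) *ᵥ v = _
      rw [← Nat.cast_smul_eq_nsmul ℚ, ← Nat.cast_smul_eq_nsmul ℚ, smul_mulVec]
    rw [e]
    exact h
  choose z hz using (hω x).mp hx
  refine ⟨∑ t, z t * A' (i, j) (a, t), ?_⟩
  have h1 : (c₁ : ℚ) * s.gram ω J (W a) i j = ∑ t, (z t : ℚ) *
      qf s.K₀ s.J₀ (ω i).1 ((ω t).1 * ((ω j).1 * W a)) := by
    have h2 : (c₁ : ℚ) * s.gram ω J (W a) i j =
        qf s.K₀ s.J₀ (ω i).1 (x.1 * ((ω j).1 * W a)) := by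
      change (c₁ : ℚ) * qf s.K₀ J (ω i).1 ((ω j).1 * W a) = _
      have h3 : x.1 = (c₁ : ℚ) • (s.K₀ * J) := (Nat.cast_smul_eq_nsmul ℚ _ _).symm
      rw [h3, Matrix.smul_mul, qf_smul_right]
      congr 1
      unfold qf
      congr 1
      rw [Matrix.mul_assoc s.K₀ J, Matrix.mul_assoc _ s.J₀, ← Matrix.mul_assoc s.J₀ s.K₀, s.hJK,
        Matrix.one_mul]
      simp only [Matrix.mul_assoc]
    rw [h2]
    have h4 : x.1 = ∑ t, (z t : ℚ) • (ω t).1 := by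
      rw [s.coe_sum ω x]
      exact Finset.sum_congr rfl fun t _ => by rw [hz t]; rfl
    rw [h4, Matrix.sum_mul]
    have h5 : ∀ (f : Fin k → Matrix (Fin n) (Fin n) ℚ) (y : Matrix (Fin n) (Fin n) ℚ),
        qf s.K₀ s.J₀ y (∑ t, f t) = ∑ t, qf s.K₀ s.J₀ y (f t) := by
      intro f y
      unfold qf
      rw [Matrix.mul_sum, Matrix.trace_sum]
    rw [h5]
    refine Finset.sum_congr rfl fun t _ => ?_
    rw [Matrix.smul_mul, qf_smul_right]
  have h6 : ∀ t, ((A' (i, j) (a, t) : ℤ) : ℚ) = d *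
      qf s.K₀ s.J₀ (ω i).1 ((ω t).1 * ((ω j).1 * W a)) := fun t =>
    congrFun (congrFun hA' (i, j)) (a, t)
  rw [Int.cast_sum, Nat.cast_mul]
  have h7 : (c₁ : ℚ) * d * s.gram ω J (W a) i j = d * (c₁ * s.gram ω J (W a) i j) := by ring
  rw [h7, h1, Finset.mul_sum]
  refine Finset.sum_congr rfl fun t _ => ?_
  rw [Int.cast_mul, h6]
  ring

end Setup

end Pool.Agent.Q55.NN
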