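import Pool.Agent.Q55.NN.Bd

/-! # Bounds for the determinants and for the reduced Gram matrices -/

set_option autoImplicit false

namespace Pool.Agent.Q55.NN

open Matrix Module Pool.Agent.Q55.SF H842

variable {n : ℕ}

namespace Setup

variable (s : Setup n) {L : AddSubgroup (Fin n → ℚ)} {k : ℕ} (ω : Basis (Fin k) ℚ s.E)

/-- the matrix of the multiplication by an element with bounded denominator -/
theorem exists_intMatrix
    (hω : ∀ x : s.E, (∀ v ∈ L, x.1 *ᵥ v ∈ L) ↔ ∀ i, ∃ z : ℤ, (z : ℚ) = ω.repr x i) (e : s.E)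
    (c : ℕ) (he : ∀ v ∈ L, c • (e.1 *ᵥ v) ∈ L) :
    ∃ Z : Matrix (Fin k) (Fin k) ℤ, Z.map (Int.castRingHom ℚ) =
      (c : ℚ) • Algebra.leftMulMatrix ω e := by
  have hωL : ∀ j, ∀ v ∈ L, (ω j).1 *ᵥ v ∈ L := by
    intro j
    rw [hω]
    intro i
    rw [Basis.repr_self]
    by_cases hij : j = i
    · exact ⟨1, by rw [hij, Finsupp.single_eq_same, Int.cast_one]⟩
    · exact ⟨0, by rw [Finsupp.single_eq_of_ne (Ne.symm hij), Int.cast_zero]⟩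
  have h : ∀ i j, ∃ z : ℤ, (z : ℚ) = (c : ℚ) * Algebra.leftMulMatrix ω e i j := by
    intro i j
    have h1 : ∀ v ∈ L, ((c : ℚ) • (e * ω j) : s.E).1 *ᵥ v ∈ L := by
      intro v hv
      have h2 := he _ (hωL j v hv)
      have h3 : ((c : ℚ) • (e * ω j) : s.E).1 *ᵥ v = c • (e.1 *ᵥ ((ω j).1 *ᵥ v)) := by
        change ((c : ℚ) • (e.1 * (ω j).1)) *ᵥ v = _
        rw [smul_mulVec, ← mulVec_mulVec, Nat.cast_smul_eq_nsmul]
      rw [h3]
      exact h2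
    obtain ⟨z, hz⟩ := (hω _).mp h1 i
    refine ⟨z, ?_⟩
    rw [hz, Algebra.leftMulMatrix_eq_repr_mul, map_smul, Finsupp.smul_apply, smul_eq_mul]
  choose Z hZ using h
  refine ⟨Matrix.of Z, ?_⟩
  ext i j
  exact hZ i j

theorem gram_eq (J : Matrix (Fin n) (Fin n) ℚ) (hJ : s.K₀ * J ∈ s.E) :
    s.gram ω J 1 = s.gram ω s.J₀ 1 * Algebra.leftMulMatrix ω ⟨s.K₀ * J, hJ⟩ := by
  ext i j
  rw [Matrix.mul_apply]
  change qf s.K₀ J (ω i).1 ((ω j).1 * 1) = ∑ t, qf s.K₀ s.J₀ (ω i).1 ((ω t).1 * 1) * _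
  have h1 : qf s.K₀ J (ω i).1 ((ω j).1 * 1) =
      qf s.K₀ s.J₀ (ω i).1 (((⟨s.K₀ * J, hJ⟩ : s.E) * ω j).1) := by
    change qf s.K₀ J (ω i).1 ((ω j).1 * 1) = qf s.K₀ s.J₀ (ω i).1 ((s.K₀ * J) * (ω j).1)
    unfold qf
    congr 1
    rw [Matrix.mul_one, Matrix.mul_assoc s.K₀ J, Matrix.mul_assoc _ s.J₀,
      ← Matrix.mul_assoc s.J₀ s.K₀, s.hJK, Matrix.one_mul]
    simp only [Matrix.mul_assoc]
  have h5 : ∀ (f : Fin k → Matrix (Fin n) (Fin n) ℚ) (y : Matrix (Fin n) (Fin n) ℚ),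
      qf s.K₀ s.J₀ y (∑ t, f t) = ∑ t, qf s.K₀ s.J₀ y (f t) := by
    intro f y
    unfold qf
    rw [Matrix.mul_sum, Matrix.trace_sum]
  rw [h1, s.coe_sum ω (⟨s.K₀ * J, hJ⟩ * ω j), h5]
  refine Finset.sum_congr rfl fun t _ => ?_
  rw [qf_smul_right, Algebra.leftMulMatrix_eq_repr_mul, Matrix.mul_one, mul_comm]
  rfl

theorem det_bound
    (hω : ∀ x : s.E, (∀ v ∈ L, x.1 *ᵥ v ∈ L) ↔ ∀ i, ∃ z : ℤ, (z : ℚ) = ω.repr x i)
    (c₁ c₂ : ℕ) (hc₁ : 0 < c₁) (hc₂ : 0 < c₂) (J : Matrix (Fin n) (Fin n) ℚ)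
    (hJ : s.Cond L c₁ c₂ J) : |(s.gram ω J 1).det| ≤ |(s.gram ω s.J₀ 1).det| * (c₁ * c₂ : ℚ) ^ k := by
  obtain ⟨K, hK1, hK2, hKE, hKL⟩ := hJ.bwd
  let e : s.E := ⟨s.K₀ * J, hJ.mem⟩
  let e' : s.E := ⟨K * s.J₀, hKE⟩
  have hee : e * e' = 1 := by
    apply Subtype.ext
    change s.K₀ * J * (K * s.J₀) = 1
    rw [Matrix.mul_assoc, ← Matrix.mul_assoc J, hK2, Matrix.one_mul, s.hKJ]
  obtain ⟨Z1, hZ1⟩ := s.exists_intMatrix ω hω e c₁ hJ.fwd
  obtain ⟨Z2, hZ2⟩ := s.exists_intMatrix ω hω e' c₂ hKL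
  have hd1 : ((Z1.det : ℤ) : ℚ) = (c₁ : ℚ) ^ k * (Algebra.leftMulMatrix ω e).det := by
    have h := RingHom.map_det (Int.castRingHom ℚ) Z1
    rw [RingHom.mapMatrix_apply, hZ1, Matrix.det_smul, Fintype.card_fin] at h
    exact h
  have hd2 : ((Z2.det : ℤ) : ℚ) = (c₂ : ℚ) ^ k * (Algebra.leftMulMatrix ω e').det := by
    have h := RingHom.map_det (Int.castRingHom ℚ) Z2
    rw [RingHom.mapMatrix_apply, hZ2, Matrix.det_smul, Fintype.card_fin] at h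
    exact h
  have hdd : (Algebra.leftMulMatrix ω e).det * (Algebra.leftMulMatrix ω e').det = 1 := by
    rw [← Matrix.det_mul, ← map_mul, hee, map_one, Matrix.det_one]
  have hq : ((Z1.det : ℤ) : ℚ) * ((Z2.det : ℤ) : ℚ) = ((c₁ : ℚ) * c₂) ^ k := by
    rw [hd1, hd2, mul_pow]
    calc (c₁ : ℚ) ^ k * (Algebra.leftMulMatrix ω e).det *
        ((c₂ : ℚ) ^ k * (Algebra.leftMulMatrix ω e').det) = (c₁ : ℚ) ^ k * (c₂ : ℚ) ^ k *
          ((Algebra.leftMulMatrix ω e).det * (Algebra.leftMulMatrix ω e').det) := by ring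
      _ = _ := by rw [hdd, mul_one]
  have hc₁' : (1 : ℚ) ≤ (c₁ : ℚ) ^ k := one_le_pow₀ (by exact_mod_cast hc₁)
  have hz2 : Z2.det ≠ 0 := by
    intro h0
    rw [h0, Int.cast_zero] at hd2
    rcases mul_eq_zero.mp hd2.symm with h1 | h1
    · exact pow_ne_zero k (Nat.cast_ne_zero.mpr hc₂.ne') h1
    · rw [h1, mul_zero] at hdd
      exact zero_ne_one hdd
  have hbound : |(Algebra.leftMulMatrix ω e).det| ≤ ((c₁ : ℚ) * c₂) ^ k := by
    have h1 : (1 : ℚ) ≤ |((Z2.det : ℤ) : ℚ)| := by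
      rw [← Int.cast_abs]
      exact_mod_cast Int.one_le_abs hz2
    have h2 : |((Z1.det : ℤ) : ℚ)| ≤ ((c₁ : ℚ) * c₂) ^ k := by
      have h3 : |((Z1.det : ℤ) : ℚ)| * |((Z2.det : ℤ) : ℚ)| = ((c₁ : ℚ) * c₂) ^ k := by
        rw [← abs_mul, hq]
        exact abs_of_nonneg (by positivity)
      calc |((Z1.det : ℤ) : ℚ)| = |((Z1.det : ℤ) : ℚ)| * 1 := (mul_one _).symm
        _ ≤ |((Z1.det : ℤ) : ℚ)| * |((Z2.det : ℤ) : ℚ)| :=
          mul_le_mul_of_nonneg_left h1 (abs_nonneg _)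
        _ = _ := h3
    rw [hd1, abs_mul, abs_of_pos (lt_of_lt_of_le one_pos hc₁')] at h2
    calc |(Algebra.leftMulMatrix ω e).det| = 1 * |(Algebra.leftMulMatrix ω e).det| :=
          (one_mul _).symm
      _ ≤ (c₁ : ℚ) ^ k * |(Algebra.leftMulMatrix ω e).det| :=
        mul_le_mul_of_nonneg_right hc₁' (abs_nonneg _)
      _ ≤ _ := h2
  rw [s.gram_eq ω J hJ.mem, Matrix.det_mul, abs_mul]
  exact mul_le_mul_of_nonneg_left hbound (abs_nonneg _)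

/-- bounded Gram matrices after reduction -/
theorem exists_bound
    (hω : ∀ x : s.E, (∀ v ∈ L, x.1 *ᵥ v ∈ L) ↔ ∀ i, ∃ z : ℤ, (z : ℚ) = ω.repr x i)
    (c₁ c₂ : ℕ) (hc₁ : 0 < c₁) (hc₂ : 0 < c₂) {r : ℕ} (W : Fin r → Matrix (Fin n) (Fin n) ℚ)
    (hW : ∀ a, W a ∈ s.E) : ∃ B : ℝ, ∀ J, s.Cond L c₁ c₂ J → ∃ g : (Matrix (Fin k) (Fin k) ℤ)ˣ,
      ∀ a i j, |((toR (g : Matrix (Fin k) (Fin k) ℤ))ᵀ *
        (s.gram ω J (W a)).map (algebraMap ℚ ℝ) * toR (g : Matrix (Fin k) (Fin k) ℤ)) i j| ≤ B := by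
  obtain ⟨R, R', h1, h2, h3⟩ := s.exists_R
  obtain ⟨c, hc, hcint⟩ := s.gram_int ω hω c₁ c₂ hc₁ (r := 1) (fun _ => 1)
  have hc' : (0 : ℝ) < c := by exact_mod_cast hc
  obtain ⟨B₀, hB₀, hB⟩ := reduced_bounded k (1 / c)
    ((|(s.gram ω s.J₀ 1).det| * (c₁ * c₂ : ℚ) ^ k : ℚ) : ℝ) (by positivity)
  choose b hb0 hb using fun a => trace_mul_bound R R' ((W a).map (algebraMap ℚ ℝ)) h1 h2
  refine ⟨∑ a, (B₀ + b a * B₀) / 2, fun J hJ => ?_⟩
  obtain ⟨g, hg1, hg2⟩ := exists_reduced (s.gram_pd ω hJ.pos)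
  refine ⟨g, ?_⟩
  have hentry : ∀ (M : Matrix (Fin k) (Fin k) ℝ) (i j : Fin k),
      ((toR (g : Matrix (Fin k) (Fin k) ℤ))ᵀ * M * toR (g : Matrix (Fin k) (Fin k) ℤ)) i j =
        (fun m => toR (g : Matrix (Fin k) (Fin k) ℤ) m i) ⬝ᵥ M *ᵥ
          (fun m => toR (g : Matrix (Fin k) (Fin k) ℤ) m j) := by
    intro M i j
    rw [Matrix.mul_assoc, Matrix.mul_apply]
    unfold dotProduct
    refine Finset.sum_congr rfl fun m _ => ?_
    rw [Matrix.transpose_apply]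
    congr 1
  have hdet : (act ((s.gram ω J 1).map (algebraMap ℚ ℝ)) g).det ≤
      ((|(s.gram ω s.J₀ 1).det| * (c₁ * c₂ : ℚ) ^ k : ℚ) : ℝ) := by
    rw [det_act]
    have h4 : ((s.gram ω J 1).map (algebraMap ℚ ℝ)).det = ((s.gram ω J 1).det : ℚ) :=
      (RingHom.map_det (algebraMap ℚ ℝ) _).symm
    rw [h4]
    exact_mod_cast (le_abs_self _).trans (s.det_bound ω hω c₁ c₂ hc₁ hc₂ J hJ)
  have hdiag : ∀ i, 1 / (c : ℝ) ≤ act ((s.gram ω J 1).map (algebraMap ℚ ℝ)) g i i := by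
    intro i
    have hpos : 0 < act ((s.gram ω J 1).map (algebraMap ℚ ℝ)) g i i := by
      have h5 := hg1.2 (Pi.single i 1) (by
        intro h
        have h6 := congrFun h i
        rw [Pi.single_eq_same, Pi.zero_apply] at h6
        exact one_ne_zero h6)
      rwa [single_dotProduct, one_mul, Matrix.mulVec_single_one] at h5
    choose z hz using fun m p => hcint J hJ 0 m p
    have hint : (c : ℝ) * act ((s.gram ω J 1).map (algebraMap ℚ ℝ)) g i i =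
        ((∑ m, ∑ p, (g : Matrix (Fin k) (Fin k) ℤ) m i * (g : Matrix (Fin k) (Fin k) ℤ) p i *
          z m p : ℤ) : ℝ) := by
      have h6 : act ((s.gram ω J 1).map (algebraMap ℚ ℝ)) g i i =
          (fun m => toR (g : Matrix (Fin k) (Fin k) ℤ) m i) ⬝ᵥ
            (s.gram ω J 1).map (algebraMap ℚ ℝ) *ᵥ
              (fun m => toR (g : Matrix (Fin k) (Fin k) ℤ) m i) := hentry _ i i
      rw [h6, dot_sum, Finset.mul_sum, Int.cast_sum]
      refine Finset.sum_congr rfl fun m _ => ?_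
      rw [Finset.mul_sum, Int.cast_sum]
      refine Finset.sum_congr rfl fun p _ => ?_
      have h7 : ((z m p : ℤ) : ℝ) = (c : ℝ) * (((s.gram ω J 1) m p : ℚ) : ℝ) := by
        have h8 := congrArg (fun q : ℚ => (q : ℝ)) (hz m p)
        push_cast at h8
        exact h8
      rw [Int.cast_mul, Int.cast_mul, h7]
      change (c : ℝ) * (((g : Matrix (Fin k) (Fin k) ℤ) m i : ℝ) *
        ((g : Matrix (Fin k) (Fin k) ℤ) p i : ℝ) * (((s.gram ω J 1) m p : ℚ) : ℝ)) = _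
      ring
    have h9 : (0 : ℝ) < (c : ℝ) * act ((s.gram ω J 1).map (algebraMap ℚ ℝ)) g i i :=
      mul_pos hc' hpos
    rw [hint] at h9
    have h10 : (1 : ℤ) ≤ ∑ m, ∑ p, (g : Matrix (Fin k) (Fin k) ℤ) m i *
        (g : Matrix (Fin k) (Fin k) ℤ) p i * z m p := by exact_mod_cast h9
    rw [div_le_iff₀ hc', mul_comm, hint]
    exact_mod_cast h10
  have hBJ := hB _ hg2 hdiag hdet
  have hX : ∀ i, qf (R.transpose * R) (J.map (algebraMap ℚ ℝ) * s.C)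
      (s.rc ω fun m => toR (g : Matrix (Fin k) (Fin k) ℤ) m i)
      (s.rc ω fun m => toR (g : Matrix (Fin k) (Fin k) ℤ) m i) ≤ B₀ := by
    intro i
    have h4 := s.gram_real ω h3 J s.E.one_mem
      (fun m => toR (g : Matrix (Fin k) (Fin k) ℤ) m i)
      (fun m => toR (g : Matrix (Fin k) (Fin k) ℤ) m i)
    rw [Matrix.map_one _ (map_zero _) (map_one _), Matrix.mul_one] at h4
    rw [← h4, ← hentry]
    exact (le_abs_self _).trans (hBJ i i)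
  intro a i j
  rw [hentry, s.gram_real ω h3 J (hW a)]
  refine (amgm hJ.pos R _ _ (s.real_symm hJ.pos R _ _)).trans ?_
  have h5 : qf (R.transpose * R) (J.map (algebraMap ℚ ℝ) * s.C)
      ((s.rc ω fun m => toR (g : Matrix (Fin k) (Fin k) ℤ) m j) * (W a).map (algebraMap ℚ ℝ))
      ((s.rc ω fun m => toR (g : Matrix (Fin k) (Fin k) ℤ) m j) * (W a).map (algebraMap ℚ ℝ)) ≤
      b a * B₀ :=
    (hb a _ hJ.pos _).trans (mul_le_mul_of_nonneg_left (hX j) (hb0 a))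
  have h6 : (B₀ + b a * B₀) / 2 ≤ ∑ a, (B₀ + b a * B₀) / 2 :=
    Finset.single_le_sum (f := fun a => (B₀ + b a * B₀) / 2) (fun a _ => by
      have := mul_nonneg (hb0 a) hB₀
      positivity) (Finset.mem_univ a)
  refine le_trans ?_ h6
  linarith [hX i]

end Setup

end Pool.Agent.Q55.NN
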