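import Pool.Agent.Q55.NN.Bd2

/-! # Finitely many classes of forms -/

set_option autoImplicit false

namespace Pool.Agent.Q55.NN

open Matrix Module Pool.Agent.Q55.SF H842

variable {n : ℕ}

namespace Setup

variable (s : Setup n) {L : AddSubgroup (Fin n → ℚ)} {k : ℕ} (ω : Basis (Fin k) ℚ s.E)

/-- the equivalence of forms under the automorphisms of the lattice in `E` -/
def Equivalent (L : AddSubgroup (Fin n → ℚ)) (J J' : Matrix (Fin n) (Fin n) ℚ) : Prop :=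
  ∃ u ∈ s.E, ∃ u' ∈ s.E, u * u' = 1 ∧ u' * u = 1 ∧ (∀ v ∈ L, u *ᵥ v ∈ L) ∧
    (∀ v ∈ L, u' *ᵥ v ∈ L) ∧ u.transpose * J' * u = J

/-- the family of the elements `1, ω 0, …, ω (k - 1)` -/
noncomputable def fam : Fin (k + 1) → Matrix (Fin n) (Fin n) ℚ :=
  Fin.cons 1 fun i => (ω i).1

theorem fam_mem (a : Fin (k + 1)) : s.fam ω a ∈ s.E := by
  refine Fin.cases ?_ (fun i => ?_) a
  · exact s.E.one_mem
  · exact (ω i).2

theorem gram_linear (J : Matrix (Fin n) (Fin n) ℚ) (w : s.E) :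
    s.gram ω J w.1 = ∑ l, ω.equivFun w l • s.gram ω J (ω l).1 := by
  ext i j
  rw [Matrix.sum_apply]
  change qf s.K₀ J (ω i).1 ((ω j).1 * w.1) = ∑ l, ω.equivFun w l * qf s.K₀ J (ω i).1 _
  have h5 : ∀ (f : Fin k → Matrix (Fin n) (Fin n) ℚ) (y : Matrix (Fin n) (Fin n) ℚ),
      qf s.K₀ J y (∑ t, f t) = ∑ t, qf s.K₀ J y (f t) := by
    intro f y
    unfold qf
    rw [Matrix.mul_sum, Matrix.trace_sum]
  conv_lhs => rw [s.coe_sum ω w, Matrix.mul_sum, h5]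
  refine Finset.sum_congr rfl fun l _ => ?_
  rw [Matrix.mul_smul, qf_smul_right]

theorem equivalent_of_gram
    (hω : ∀ x : s.E, (∀ v ∈ L, x.1 *ᵥ v ∈ L) ↔ ∀ i, ∃ z : ℤ, (z : ℚ) = ω.repr x i)
    {J J' : Matrix (Fin n) (Fin n) ℚ} (hJm : s.K₀ * J ∈ s.E) (hJm' : s.K₀ * J' ∈ s.E)
    (hJ' : (J'.map (algebraMap ℚ ℝ) * s.C).PosDef) (H H' : Matrix (Fin k) (Fin k) ℤ)
    (hH : H.map (Int.castRingHom ℚ) * H'.map (Int.castRingHom ℚ) = 1)
    (hg : ∀ a, s.gram ω J (s.fam ω a) = (H.map (Int.castRingHom ℚ)).transpose *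
      s.gram ω J' (s.fam ω a) * H.map (Int.castRingHom ℚ)) : s.Equivalent L J J' := by
  set h := H.map (Int.castRingHom ℚ) with hh
  set h' := H'.map (Int.castRingHom ℚ) with hh'
  have hH2 : h' * h = 1 := mul_eq_one_comm.mp hH
  let φ : s.E → s.E := fun x => ω.equivFun.symm (h *ᵥ ω.equivFun x)
  let ψ : s.E → s.E := fun x => ω.equivFun.symm (h' *ᵥ ω.equivFun x)
  have hφ : ∀ x, ω.equivFun (φ x) = h *ᵥ ω.equivFun x := fun x =>
    ω.equivFun.apply_symm_apply _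
  have hψ : ∀ x, ω.equivFun (ψ x) = h' *ᵥ ω.equivFun x := fun x =>
    ω.equivFun.apply_symm_apply _
  have hφψ : ∀ x, φ (ψ x) = x := by
    intro x
    apply ω.equivFun.injective
    rw [hφ, hψ, mulVec_mulVec, hH, one_mulVec]
  have hgw : ∀ w : s.E, s.gram ω J w.1 = h.transpose * s.gram ω J' w.1 * h := by
    intro w
    rw [s.gram_linear ω J w, s.gram_linear ω J' w, Matrix.mul_sum, Matrix.sum_mul]
    refine Finset.sum_congr rfl fun l _ => ?_
    have h1 := hg l.succ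
    have h2 : s.fam ω l.succ = (ω l).1 := rfl
    rw [h2] at h1
    rw [h1, Matrix.mul_smul, Matrix.smul_mul]
  have key : ∀ x y w : s.E, qf s.K₀ J x.1 (y.1 * w.1) = qf s.K₀ J' (φ x).1 ((φ y).1 * w.1) := by
    intro x y w
    rw [s.qf_gram ω J w.1, s.qf_gram ω J' w.1, hφ, hφ, hgw w, ← mulVec_mulVec, ← mulVec_mulVec,
      Matrix.dotProduct_mulVec (ω.equivFun x), Matrix.vecMul_transpose]
  have hmul : ∀ z : s.E, φ z = φ 1 * z := by
    intro z
    have h3 : ∀ x, qf s.K₀ J' (φ x).1 ((φ z).1 - (φ 1).1 * z.1) = 0 := by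
      intro x
      have h4 := key x z 1
      have h5 := key x 1 z
      have h6 : z.1 * (1 : s.E).1 = (1 : s.E).1 * z.1 := by
        change z.1 * 1 = 1 * z.1
        rw [Matrix.mul_one, Matrix.one_mul]
      rw [h6] at h4
      have h7 : (φ z).1 * (1 : s.E).1 = (φ z).1 := Matrix.mul_one _
      rw [h7] at h4
      rw [qf_sub_right, ← h4, ← h5, sub_self]
    have h8 := h3 (ψ (φ z - φ 1 * z))
    rw [hφψ] at h8
    have h9 := s.qf_eq_zero hJ' (φ z - φ 1 * z).2 h8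
    exact sub_eq_zero.mp (Subtype.ext h9)
  have hone : ∀ i, ∃ z : ℤ, (z : ℚ) = ω.repr (1 : s.E) i := by
    rw [← hω]
    intro v hv
    change (1 : Matrix (Fin n) (Fin n) ℚ) *ᵥ v ∈ L
    rw [one_mulVec]
    exact hv
  have hpres : ∀ (M : Matrix (Fin k) (Fin k) ℤ) (x : s.E),
      ω.equivFun x = M.map (Int.castRingHom ℚ) *ᵥ ω.equivFun 1 → ∀ v ∈ L, x.1 *ᵥ v ∈ L := by
    intro M x hx
    rw [hω]
    intro i
    choose z hz using hone
    refine ⟨∑ j, M i j * z j, ?_⟩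
    have h3 : ω.repr x i = ω.equivFun x i := rfl
    rw [h3, hx]
    unfold Matrix.mulVec dotProduct
    rw [Int.cast_sum]
    refine Finset.sum_congr rfl fun j _ => ?_
    rw [Int.cast_mul, hz j]
    rfl
  have huy : φ 1 * ψ 1 = 1 := by rw [← hmul, hφψ]
  have huy' : (φ 1).1 * (ψ 1).1 = 1 := congrArg Subtype.val huy
  refine ⟨(φ 1).1, (φ 1).2, (ψ 1).1, (ψ 1).2, huy', mul_eq_one_comm.mp huy',
    hpres H _ (hφ 1), hpres H' _ (hψ 1), ?_⟩
  -- the equality of the forms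
  set u := (φ 1).1 with hu
  have hz : s.K₀ * (u.transpose * J' * u - J) ∈ s.E := by
    have e1 : s.K₀ * (u.transpose * J' * u - J) =
        (s.K₀ * u.transpose * s.J₀) * (s.K₀ * J') * u - s.K₀ * J := by
      rw [Matrix.mul_sub]
      congr 1
      have e2 : (s.K₀ * u.transpose * s.J₀) * (s.K₀ * J') =
          s.K₀ * u.transpose * (s.J₀ * s.K₀) * J' := by simp only [Matrix.mul_assoc]
      rw [e2, s.hJK, Matrix.mul_one]
      simp only [Matrix.mul_assoc]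
    rw [e1]
    exact s.E.sub_mem (s.E.mul_mem (s.E.mul_mem (s.adj _ (φ 1).2) hJm') (φ 1).2) hJm
  have hqz : qf s.K₀ s.J₀ (s.K₀ * (u.transpose * J' * u - J))
      (s.K₀ * (u.transpose * J' * u - J)) = 0 := by
    have e1 : qf s.K₀ s.J₀ (s.K₀ * (u.transpose * J' * u - J))
        (s.K₀ * (u.transpose * J' * u - J)) =
        qf s.K₀ J' (u * (s.K₀ * (u.transpose * J' * u - J))) u -
          qf s.K₀ J (s.K₀ * (u.transpose * J' * u - J)) 1 := by
      obtain ⟨y, hy⟩ : ∃ y, y = s.K₀ * (u.transpose * J' * u - J) := ⟨_, rfl⟩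
      have e2 : s.J₀ * y = u.transpose * J' * u - J := by
        rw [hy, ← Matrix.mul_assoc, s.hJK, Matrix.one_mul]
      rw [← hy]
      unfold qf
      rw [← Matrix.trace_sub]
      congr 1
      rw [Matrix.mul_assoc (s.K₀ * y.transpose) s.J₀, e2, Matrix.mul_sub,
        Matrix.transpose_mul u y, Matrix.mul_one]
      simp only [Matrix.mul_assoc]
    rw [e1]
    have h3 := key ⟨_, hz⟩ 1 1
    rw [hmul ⟨_, hz⟩] at h3
    have h4 : qf s.K₀ J (s.K₀ * (u.transpose * J' * u - J)) 1 =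
        qf s.K₀ J' (u * (s.K₀ * (u.transpose * J' * u - J))) u := by
      have h5 : (1 : s.E).1 * (1 : s.E).1 = (1 : Matrix (Fin n) (Fin n) ℚ) := Matrix.mul_one _
      have h6 : (φ 1).1 * (1 : s.E).1 = u := Matrix.mul_one _
      rw [h5, h6] at h3
      exact h3
    rw [h4, sub_self]
  have h0 := s.qf_eq_zero s.pos hz hqz
  have h1 : u.transpose * J' * u - J = 0 := by
    calc u.transpose * J' * u - J = (s.J₀ * s.K₀) * (u.transpose * J' * u - J) := by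
          rw [s.hJK, Matrix.one_mul]
      _ = 0 := by rw [Matrix.mul_assoc, h0, Matrix.mul_zero]
  exact sub_eq_zero.mp h1

/-- **the finiteness of the classes of forms** -/
theorem finite_forms (hL : L.FG) (hs : Full L) (c₁ c₂ : ℕ) (hc₁ : 0 < c₁) (hc₂ : 0 < c₂) :
    ∃ (m : ℕ) (B : Fin m → {J // s.Cond L c₁ c₂ J}), ∀ J : {J // s.Cond L c₁ c₂ J},
      ∃ i, s.Equivalent L J.1 (B i).1 := by
  obtain ⟨k, ω, hω⟩ := order_basis s.E L hL hs
  obtain ⟨B, hB⟩ := s.exists_bound ω hω c₁ c₂ hc₁ hc₂ (s.fam ω) (s.fam_mem ω)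
  obtain ⟨c, hc, hint⟩ := s.gram_int ω hω c₁ c₂ hc₁ (s.fam ω)
  have hc0 : (c : ℝ) ≠ 0 := Nat.cast_ne_zero.mpr hc.ne'
  obtain ⟨N, hN⟩ := exists_nat_ge ((c : ℝ) * B)
  suffices hfam : ∃ (m : ℕ) (F : Fin m → {J // s.Cond L c₁ c₂ J}),
      ∀ J : {J // s.Cond L c₁ c₂ J}, True → ∃ i, s.Equivalent L J.1 (F i).1 by
    obtain ⟨m, F, hF⟩ := hfam
    exact ⟨m, F, fun J => hF J trivial⟩
  refine exists_family
    (T := Fin (k + 1) → Fin k → Fin k → {z : ℤ // z ∈ Finset.Icc (-(N : ℤ)) N})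
    (fun _ : {J // s.Cond L c₁ c₂ J} => True)
    (fun J t => ∃ g : (Matrix (Fin k) (Fin k) ℤ)ˣ, ∀ a i j, (((t a i j).1 : ℤ) : ℝ) =
      c * ((toR (g : Matrix (Fin k) (Fin k) ℤ))ᵀ *
        (s.gram ω J.1 (s.fam ω a)).map (algebraMap ℚ ℝ) *
          toR (g : Matrix (Fin k) (Fin k) ℤ)) i j)
    (fun J J' => s.Equivalent L J'.1 J.1) ?_ ?_
  · intro J _
    obtain ⟨g, hg⟩ := hB J.1 J.2
    have h1 : ∀ a i j, ∃ z : ℤ, (z : ℝ) = c * ((toR (g : Matrix (Fin k) (Fin k) ℤ))ᵀ *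
        (s.gram ω J.1 (s.fam ω a)).map (algebraMap ℚ ℝ) *
          toR (g : Matrix (Fin k) (Fin k) ℤ)) i j := by
      intro a i j
      choose z hz using fun p q => hint J.1 J.2 a p q
      refine ⟨∑ p, ∑ q, (g : Matrix (Fin k) (Fin k) ℤ) p i * (g : Matrix (Fin k) (Fin k) ℤ) q j *
        z p q, ?_⟩
      rw [Matrix.mul_assoc, Matrix.mul_apply, Finset.mul_sum, Int.cast_sum]
      refine Finset.sum_congr rfl fun p _ => ?_
      rw [Matrix.transpose_apply, Matrix.mul_apply, Finset.mul_sum, Finset.mul_sum, Int.cast_sum]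
      refine Finset.sum_congr rfl fun q _ => ?_
      have h7 : ((z p q : ℤ) : ℝ) = (c : ℝ) * (((s.gram ω J.1 (s.fam ω a)) p q : ℚ) : ℝ) := by
        have h8 := congrArg (fun x : ℚ => (x : ℝ)) (hz p q)
        push_cast at h8
        exact h8
      rw [Int.cast_mul, Int.cast_mul, h7]
      change _ = (c : ℝ) * (((g : Matrix (Fin k) (Fin k) ℤ) p i : ℝ) *
        ((((s.gram ω J.1 (s.fam ω a)) p q : ℚ) : ℝ) * ((g : Matrix (Fin k) (Fin k) ℤ) q j : ℝ)))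
      ring
    choose z hz using h1
    refine ⟨fun a i j => ⟨z a i j, ?_⟩, g, fun a i j => hz a i j⟩
    have h2 : |((z a i j : ℤ) : ℝ)| ≤ N := by
      rw [hz, abs_mul, Nat.abs_cast]
      exact (mul_le_mul_of_nonneg_left (hg a i j) (Nat.cast_nonneg c)).trans hN
    have h3 : |z a i j| ≤ (N : ℤ) := by
      have h4 : ((|z a i j| : ℤ) : ℝ) ≤ ((N : ℤ) : ℝ) := by
        rw [Int.cast_abs]
        exact_mod_cast h2
      exact_mod_cast h4
    rw [Finset.mem_Icc]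
    exact abs_le.mp h3
  · rintro J J' t ⟨g, hg⟩ ⟨g', hg'⟩
    -- `J'` and `J` have the same matrices
    have hinvR : ∀ f : (Matrix (Fin k) (Fin k) ℤ)ˣ,
        toR (f : Matrix (Fin k) (Fin k) ℤ) * toR ((f⁻¹ : (Matrix (Fin k) (Fin k) ℤ)ˣ) :
          Matrix (Fin k) (Fin k) ℤ) = 1 := by
      intro f
      rw [← toR_mul, Units.mul_inv, toR_one]
    have hreal : ∀ a, (s.gram ω J'.1 (s.fam ω a)).map (algebraMap ℚ ℝ) =
        (toR ((g : Matrix (Fin k) (Fin k) ℤ) *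
          ((g'⁻¹ : (Matrix (Fin k) (Fin k) ℤ)ˣ) : Matrix (Fin k) (Fin k) ℤ)))ᵀ *
          (s.gram ω J.1 (s.fam ω a)).map (algebraMap ℚ ℝ) *
            toR ((g : Matrix (Fin k) (Fin k) ℤ) *
              ((g'⁻¹ : (Matrix (Fin k) (Fin k) ℤ)ˣ) : Matrix (Fin k) (Fin k) ℤ)) := by
      intro a
      have h1 : (toR (g : Matrix (Fin k) (Fin k) ℤ))ᵀ *
          (s.gram ω J.1 (s.fam ω a)).map (algebraMap ℚ ℝ) * toR (g : Matrix (Fin k) (Fin k) ℤ) =
          (toR (g' : Matrix (Fin k) (Fin k) ℤ))ᵀ *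
          (s.gram ω J'.1 (s.fam ω a)).map (algebraMap ℚ ℝ) *
            toR (g' : Matrix (Fin k) (Fin k) ℤ) := by
        ext i j
        have h2 := (hg a i j).symm.trans (hg' a i j)
        exact mul_left_cancel₀ hc0 h2
      have h3 : ∀ M : Matrix (Fin k) (Fin k) ℝ,
          (toR ((g'⁻¹ : (Matrix (Fin k) (Fin k) ℤ)ˣ) : Matrix (Fin k) (Fin k) ℤ))ᵀ *
            ((toR (g' : Matrix (Fin k) (Fin k) ℤ))ᵀ * M * toR (g' : Matrix (Fin k) (Fin k) ℤ)) *
              toR ((g'⁻¹ : (Matrix (Fin k) (Fin k) ℤ)ˣ) : Matrix (Fin k) (Fin k) ℤ) = M := by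
        intro M
        have h4 : (toR ((g'⁻¹ : (Matrix (Fin k) (Fin k) ℤ)ˣ) : Matrix (Fin k) (Fin k) ℤ))ᵀ *
            (toR (g' : Matrix (Fin k) (Fin k) ℤ))ᵀ = 1 := by
          rw [← transpose_mul, hinvR, transpose_one]
        calc _ = ((toR ((g'⁻¹ : (Matrix (Fin k) (Fin k) ℤ)ˣ) : Matrix (Fin k) (Fin k) ℤ))ᵀ *
            (toR (g' : Matrix (Fin k) (Fin k) ℤ))ᵀ) * M * (toR (g' : Matrix (Fin k) (Fin k) ℤ) *
              toR ((g'⁻¹ : (Matrix (Fin k) (Fin k) ℤ)ˣ) : Matrix (Fin k) (Fin k) ℤ)) := by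
                simp only [Matrix.mul_assoc]
          _ = M := by rw [h4, hinvR, Matrix.one_mul, Matrix.mul_one]
      rw [← h3 ((s.gram ω J'.1 (s.fam ω a)).map (algebraMap ℚ ℝ)), ← h1, toR_mul, transpose_mul]
      simp only [Matrix.mul_assoc]
    have hrat : ∀ a, s.gram ω J'.1 (s.fam ω a) =
        (((g : Matrix (Fin k) (Fin k) ℤ) *
          ((g'⁻¹ : (Matrix (Fin k) (Fin k) ℤ)ˣ) : Matrix (Fin k) (Fin k) ℤ)).map
            (Int.castRingHom ℚ)).transpose * s.gram ω J.1 (s.fam ω a) *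
          ((g : Matrix (Fin k) (Fin k) ℤ) *
          ((g'⁻¹ : (Matrix (Fin k) (Fin k) ℤ)ˣ) : Matrix (Fin k) (Fin k) ℤ)).map
            (Int.castRingHom ℚ) := by
      intro a
      have h1 := hreal a
      have h2 : ∀ M : Matrix (Fin k) (Fin k) ℤ, toR M =
          (M.map (Int.castRingHom ℚ)).map (algebraMap ℚ ℝ) := by
        intro M
        ext i j
        change ((M i j : ℤ) : ℝ) = algebraMap ℚ ℝ ((M i j : ℤ) : ℚ)
        rw [map_intCast]
      rw [h2, ← transpose_map, ← Matrix.map_mul, ← Matrix.map_mul] at h1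
      ext i j
      have h3 := congrFun (congrFun h1 i) j
      rw [Matrix.map_apply, Matrix.map_apply] at h3
      exact (algebraMap ℚ ℝ).injective h3
    refine s.equivalent_of_gram ω hω J'.2.mem J.2.mem J.2.pos
      ((g : Matrix (Fin k) (Fin k) ℤ) *
        ((g'⁻¹ : (Matrix (Fin k) (Fin k) ℤ)ˣ) : Matrix (Fin k) (Fin k) ℤ))
      ((g' : Matrix (Fin k) (Fin k) ℤ) *
        ((g⁻¹ : (Matrix (Fin k) (Fin k) ℤ)ˣ) : Matrix (Fin k) (Fin k) ℤ)) ?_ hrat
    rw [← Matrix.map_mul]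
    have h1 : (g : Matrix (Fin k) (Fin k) ℤ) *
        ((g'⁻¹ : (Matrix (Fin k) (Fin k) ℤ)ˣ) : Matrix (Fin k) (Fin k) ℤ) *
        ((g' : Matrix (Fin k) (Fin k) ℤ) *
        ((g⁻¹ : (Matrix (Fin k) (Fin k) ℤ)ˣ) : Matrix (Fin k) (Fin k) ℤ)) = 1 := by
      rw [Matrix.mul_assoc, ← Matrix.mul_assoc _ (g' : Matrix (Fin k) (Fin k) ℤ), Units.inv_mul,
        Matrix.one_mul, Units.mul_inv]
    rw [h1, Matrix.map_one _ (map_zero _) (map_one _)]

end Setup

end Pool.Agent.Q55.NN
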