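import Pool.Agent.Q55.ZT.Defs

/-! # Polarized `ℤ`-motives: definitions -/

set_option autoImplicit false

namespace Pool.Agent.Q55.NN

open Matrix Pool.Agent.Q55.SF Pool.Agent.Q55.ZT

variable {G : Type} [Group G] {D : Motives G}

/-- `J` is a polarization of type `N` of the `ℤ`-motive `A`: a polarization of the rational motive
which is integral on the lattice `L`, such that `N L' ⊂ L` for the dual lattice `L'` of `L` with
respect to `J`. (For `N = 1`: the lattice is self-dual.) -/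
def IsPolarizationOf (Q : Forms D) (A : D.ZMotive) (N : ℕ)
    (J : Matrix (Fin (D.rank A.X)) (Fin (D.rank A.X)) ℚ) : Prop :=
  Q.IsPolarization A.X J ∧
    (∀ (ℓ : ℕ) [Fact ℓ.Prime], ∀ u ∈ A.L ℓ, ∀ v ∈ A.L ℓ,
      ‖u ⬝ᵥ J.map (algebraMap ℚ ℚ_[ℓ]) *ᵥ v‖ ≤ 1) ∧
    ∀ (ℓ : ℕ) [Fact ℓ.Prime] (v : Fin (D.rank A.X) → ℚ_[ℓ]),
      (∀ u ∈ A.L ℓ, ‖u ⬝ᵥ J.map (algebraMap ℚ ℚ_[ℓ]) *ᵥ v‖ ≤ 1) → (N : ℚ_[ℓ]) • v ∈ A.L ℓ

/-- The `ℤ`-motives `A` and `B` with the forms `J` and `J'` are isomorphic. -/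
def PolIso (A B : D.ZMotive) (J : Matrix (Fin (D.rank A.X)) (Fin (D.rank A.X)) ℚ)
    (J' : Matrix (Fin (D.rank B.X)) (Fin (D.rank B.X)) ℚ) : Prop :=
  ∃ f ∈ D.Hom A.X B.X, ∃ g ∈ D.Hom B.X A.X, g * f = 1 ∧ f * g = 1 ∧
    (∀ (ℓ : ℕ) [Fact ℓ.Prime] (v : Fin (D.rank A.X) → ℚ_[ℓ]),
      v ∈ A.L ℓ ↔ f.map (algebraMap ℚ ℚ_[ℓ]) *ᵥ v ∈ B.L ℓ) ∧ f.transpose * J' * f = J

/-- A `ℤ`-motive with a polarization of type `N`. -/
structure Polarized (Q : Forms D) (N : ℕ) where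
  /-- the `ℤ`-motive -/
  A : D.ZMotive
  /-- the polarization -/
  J : Matrix (Fin (D.rank A.X)) (Fin (D.rank A.X)) ℚ
  pol : IsPolarizationOf Q A N J

/-- For each value `t` of the Hodge numbers `h` there are only finitely many isomorphism classes of
`ℤ`-motives with the property `P` and with a polarization of type `N`. -/
def PolarizedFiniteness (Q : Forms D) {τ : Type} (P : D.Obj → Prop) (h : D.Obj → τ) (N : ℕ) :
    Prop :=
  ∀ t : τ, ∃ (m : ℕ) (B : Fin m → Polarized Q N), ∀ B' : Polarized Q N, P B'.A.X →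
    h B'.A.X = t → ∃ i, PolIso (B i).A B'.A (B i).J B'.J

end Pool.Agent.Q55.NN
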