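import Pool.Agent.Q55.NN.Defs
import Pool.Agent.Q55.NN.Cmp
import Pool.Agent.Q55.ZT.Main

/-! # Polarizations of `ℤ`-motives -/

set_option autoImplicit false

namespace Pool.Agent.Q55.NN

open Matrix Module Pool.Agent.Q55.SF Pool.Agent.Q55.ZT

variable {G : Type} [Group G] {D : Motives G} {Q : Forms D}

theorem polIso_symm {A B : D.ZMotive} {J : Matrix (Fin (D.rank A.X)) (Fin (D.rank A.X)) ℚ}
    {J' : Matrix (Fin (D.rank B.X)) (Fin (D.rank B.X)) ℚ} (h : PolIso A B J J') :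
    PolIso B A J' J := by
  obtain ⟨f, hf, g, hg, h1, h2, h3, h4⟩ := h
  refine ⟨g, hg, f, hf, h2, h1, fun ℓ _ v => ?_, ?_⟩
  · rw [h3 ℓ, mulVec_mulVec, ← Matrix.map_mul, h2, Matrix.map_one _ (map_zero _) (map_one _),
      one_mulVec]
  · rw [← h4]
    have h5 : g.transpose * f.transpose = 1 := by rw [← transpose_mul, h2, transpose_one]
    calc g.transpose * (f.transpose * J' * f) * g =
        (g.transpose * f.transpose) * J' * (f * g) := by simp only [Matrix.mul_assoc]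
      _ = J' := by rw [h5, h2, Matrix.one_mul, Matrix.mul_one]

theorem polIso_trans {A B C : D.ZMotive} {J : Matrix (Fin (D.rank A.X)) (Fin (D.rank A.X)) ℚ}
    {J' : Matrix (Fin (D.rank B.X)) (Fin (D.rank B.X)) ℚ}
    {J'' : Matrix (Fin (D.rank C.X)) (Fin (D.rank C.X)) ℚ} (h : PolIso A B J J')
    (h' : PolIso B C J' J'') : PolIso A C J J'' := by
  obtain ⟨f, hf, g, hg, h1, h2, h3, h4⟩ := h
  obtain ⟨f', hf', g', hg', h1', h2', h3', h4'⟩ := h'
  refine ⟨f' * f, D.mul_mem _ _ _ _ _ hf' hf, g * g', D.mul_mem _ _ _ _ _ hg hg', ?_, ?_,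
    fun ℓ _ v => ?_, ?_⟩
  · rw [Matrix.mul_assoc, ← Matrix.mul_assoc g', h1', Matrix.one_mul, h1]
  · rw [Matrix.mul_assoc, ← Matrix.mul_assoc f, h2, Matrix.one_mul, h2']
  · rw [h3 ℓ, h3' ℓ, mulVec_mulVec, ← Matrix.map_mul]
  · rw [← h4, ← h4', transpose_mul]
    simp only [Matrix.mul_assoc]

/-- transport of a polarization along an isomorphism -/
theorem transport {A B : D.ZMotive} {N : ℕ}
    {J : Matrix (Fin (D.rank A.X)) (Fin (D.rank A.X)) ℚ} (hJ : IsPolarizationOf Q A N J)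
    (hB : D.Iso B A) : ∃ J', IsPolarizationOf Q B N J' ∧ PolIso B A J' J := by
  obtain ⟨f, hf, g, hg, h1, h2, h3⟩ := hB
  obtain ⟨hp, hint, hdual⟩ := hJ
  have hft : f.transpose * g.transpose = 1 := by rw [← transpose_mul, h1, transpose_one]
  have hgt : g.transpose * f.transpose = 1 := by rw [← transpose_mul, h2, transpose_one]
  have hdot : ∀ (ℓ : ℕ) [Fact ℓ.Prime] (u v : Fin (D.rank B.X) → ℚ_[ℓ]),
      u ⬝ᵥ (f.transpose * J * f).map (algebraMap ℚ ℚ_[ℓ]) *ᵥ v =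
        (f.map (algebraMap ℚ ℚ_[ℓ]) *ᵥ u) ⬝ᵥ J.map (algebraMap ℚ ℚ_[ℓ]) *ᵥ
          (f.map (algebraMap ℚ ℚ_[ℓ]) *ᵥ v) := by
    intro ℓ _ u v
    rw [Matrix.map_mul, Matrix.map_mul, ← mulVec_mulVec, ← mulVec_mulVec, transpose_map,
      Matrix.dotProduct_mulVec u, Matrix.vecMul_transpose]
  refine ⟨f.transpose * J * f, ⟨⟨?_, ?_, ?_, ?_⟩, fun ℓ _ u hu v hv => ?_, fun ℓ _ v hv => ?_⟩,
    ⟨f, hf, g, hg, h1, h2, h3, rfl⟩⟩
  · exact Q.pull B.X A.X J f f hp.mem hf hf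
  · rw [transpose_mul, transpose_mul, transpose_transpose, hp.sign, Matrix.smul_mul,
      Matrix.mul_smul, Matrix.mul_assoc]
  · obtain ⟨K, hK1, hK2, hK3⟩ := hp.iso
    refine ⟨g * K * g.transpose, ?_, ?_, fun J'' hJ'' => ?_⟩
    · calc g * K * g.transpose * (f.transpose * J * f) =
          g * (K * (g.transpose * f.transpose) * J) * f := by simp only [Matrix.mul_assoc]
        _ = 1 := by rw [hgt, Matrix.mul_one, hK1, Matrix.mul_one, h1]
    · calc f.transpose * J * f * (g * K * g.transpose) =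
          f.transpose * (J * (f * g) * K) * g.transpose := by simp only [Matrix.mul_assoc]
        _ = 1 := by rw [h2, Matrix.mul_one, hK2, Matrix.mul_one, hft]
    · have h4 := hK3 _ (Q.pull A.X B.X J'' g g hJ'' hg hg)
      have h5 := D.mul_mem _ _ _ _ _ (D.mul_mem _ _ _ _ _ hg h4) hf
      have h6 : g * (K * (g.transpose * J'' * g)) * f = g * K * g.transpose * J'' := by
        calc _ = g * K * g.transpose * J'' * (g * f) := by simp only [Matrix.mul_assoc]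
          _ = _ := by rw [h1, Matrix.mul_one]
      rwa [h6] at h5
  · have h4 : (f.transpose * J * f).map (algebraMap ℚ ℝ) * Q.weil B.X =
        (f.map (algebraMap ℚ ℝ)).transpose * (J.map (algebraMap ℚ ℝ) * Q.weil A.X) *
          f.map (algebraMap ℚ ℝ) := by
      rw [Matrix.map_mul, Matrix.map_mul, Matrix.mul_assoc, Q.weil_comm B.X A.X f hf,
        transpose_map]
      simp only [Matrix.mul_assoc]
    rw [h4]
    have hsy := pos_symm hp.posDef
    refine Matrix.PosDef.of_dotProduct_mulVec_pos ?_ ?_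
    · unfold Matrix.IsHermitian
      rw [Matrix.conjTranspose_eq_transpose_of_trivial, transpose_mul, transpose_mul,
        transpose_transpose, hsy]
      simp only [Matrix.mul_assoc]
    · intro v hv
      rw [star_trivial, ← mulVec_mulVec, ← mulVec_mulVec, Matrix.dotProduct_mulVec v,
        Matrix.vecMul_transpose]
      have h5 : f.map (algebraMap ℚ ℝ) *ᵥ v ≠ 0 := by
        intro h0
        apply hv
        have h6 : g.map (algebraMap ℚ ℝ) *ᵥ (f.map (algebraMap ℚ ℝ) *ᵥ v) = v := by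
          rw [mulVec_mulVec, ← Matrix.map_mul, h1, Matrix.map_one _ (map_zero _) (map_one _),
            one_mulVec]
        rw [← h6, h0, mulVec_zero]
      have h7 := hp.posDef.dotProduct_mulVec_pos h5
      rwa [star_trivial] at h7
  · rw [hdot]
    exact hint ℓ _ ((h3 ℓ u).mp hu) _ ((h3 ℓ v).mp hv)
  · rw [h3, mulVec_smul]
    refine hdual ℓ _ fun u hu => ?_
    have h4 : f.map (algebraMap ℚ ℚ_[ℓ]) *ᵥ (g.map (algebraMap ℚ ℚ_[ℓ]) *ᵥ u) = u := by
      rw [mulVec_mulVec, ← Matrix.map_mul, h2, Matrix.map_one _ (map_zero _) (map_one _),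
        one_mulVec]
    have h5 := hv (g.map (algebraMap ℚ ℚ_[ℓ]) *ᵥ u) (by rw [h3, h4]; exact hu)
    rwa [hdot, h4] at h5

/-- the setup for a polarized motive -/
theorem exists_setup {X : D.Obj} {J₀ : Matrix (Fin (D.rank X)) (Fin (D.rank X)) ℚ}
    (hJ : Q.IsPolarization X J₀) : ∃ s : Setup (D.rank X), s.E = D.endo X ∧ s.J₀ = J₀ ∧
      s.C = Q.weil X ∧ ∀ J' ∈ Q.form X, s.K₀ * J' ∈ D.Hom X X := by
  obtain ⟨K, hK1, hK2, hK3⟩ := hJ.iso
  refine ⟨⟨D.endo X, J₀, K, hK1, hK2, fun x hx => ?_, Q.weil X, fun x hx => ?_, hJ.posDef⟩,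
    rfl, rfl, rfl, hK3⟩
  · have h1 := hK3 _ (Q.pull X X J₀ x 1 hJ.mem hx (D.one_mem X))
    rw [Matrix.mul_one, ← Matrix.mul_assoc] at h1
    exact h1
  · exact Q.weil_comm X X x hx

/-- an element of the endomorphism algebra that preserves the rational lattice preserves the adelic
lattice -/
theorem pres_of_rat {A : D.ZMotive} {u u' : Matrix (Fin (D.rank A.X)) (Fin (D.rank A.X)) ℚ}
    (hu : u ∈ D.Hom A.X A.X) (h1 : u' * u = 1) (h2 : u * u' = 1)
    (h : ∀ v ∈ rat A.X A.L, u *ᵥ v ∈ rat A.X A.L) (ℓ : ℕ) [Fact ℓ.Prime]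
    (v : Fin (D.rank A.X) → ℚ_[ℓ]) (hv : v ∈ A.L ℓ) :
    u.map (algebraMap ℚ ℚ_[ℓ]) *ᵥ v ∈ A.L ℓ := by
  rw [← mem_push h1 h2]
  refine rat_inj A.isLattice (isLattice_push hu h1 h2 A.isLattice) (fun w hw => ?_) ℓ v hv
  intro ℓ' _
  rw [mem_push h1 h2, ← toQl_mulVec]
  exact h w hw ℓ'

theorem polIso_of_equivalent {A : D.ZMotive} {s : Setup (D.rank A.X)} (hsE : s.E = D.endo A.X)
    {J J' : Matrix (Fin (D.rank A.X)) (Fin (D.rank A.X)) ℚ}
    (h : s.Equivalent (rat A.X A.L) J J') : PolIso A A J J' := by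
  obtain ⟨u, hu, u', hu', h1, h2, h3, h4, h5⟩ := h
  rw [hsE] at hu hu'
  refine ⟨u, hu, u', hu', h2, h1, fun ℓ _ v => ⟨fun hv => ?_, fun hv => ?_⟩, h5⟩
  · exact pres_of_rat hu h2 h1 h3 ℓ v hv
  · have h6 := pres_of_rat hu' h1 h2 h4 ℓ _ hv
    rwa [mulVec_mulVec, ← Matrix.map_mul, h2, Matrix.map_one _ (map_zero _) (map_one _),
      one_mulVec] at h6

/-- the comparison of two polarizations of type `N` -/
theorem compare {A : D.ZMotive} {N : ℕ} {J J' K : Matrix (Fin (D.rank A.X))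
    (Fin (D.rank A.X)) ℚ} (hJ : IsPolarizationOf Q A N J) (hJ' : IsPolarizationOf Q A N J')
    (hK : J * K = 1) (v : Fin (D.rank A.X) → ℚ) (hv : v ∈ rat A.X A.L) :
    N • ((K * J') *ᵥ v) ∈ rat A.X A.L := by
  intro ℓ _
  rw [toQl_nsmul, toQl_mulVec]
  refine hJ.2.2 ℓ _ fun u hu => ?_
  rw [mulVec_mulVec, ← Matrix.map_mul, ← Matrix.mul_assoc, hK, Matrix.one_mul]
  exact hJ'.2.1 ℓ u hu _ (hv ℓ)

/-- **Finitely many polarizations of type** `N` **up to automorphisms.** -/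
theorem finite_polarizations (A : D.ZMotive) (N : ℕ) (hN : 0 < N) :
    ∃ (m : ℕ) (F : Fin m → {J // IsPolarizationOf Q A N J}),
      ∀ J : {J // IsPolarizationOf Q A N J}, ∃ i, PolIso A A (F i).1 J.1 := by
  by_cases hne : ∃ J₀, IsPolarizationOf Q A N J₀
  · obtain ⟨J₀, hJ₀⟩ := hne
    obtain ⟨s, hsE, hsJ, hsC, hsK⟩ := exists_setup hJ₀.1
    have hcond : ∀ J, IsPolarizationOf Q A N J → s.Cond (rat A.X A.L) N N J := by
      intro J hJ
      obtain ⟨K, hK1, hK2, hK3⟩ := hJ.1.iso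
      refine ⟨?_, ?_, fun v hv => ?_, K, hK1, hK2, ?_, fun v hv => ?_⟩
      · rw [hsE]
        exact hsK _ hJ.1.mem
      · rw [hsC]
        exact hJ.1.posDef
      · refine compare hJ₀ hJ ?_ v hv
        rw [← hsJ]
        exact s.hJK
      · rw [hsE, hsJ]
        exact hK3 _ hJ₀.1.mem
      · rw [hsJ]
        exact compare hJ hJ₀ hK2 v hv
    obtain ⟨m, B, hB⟩ := s.finite_forms (rat_fg A.isLattice) (rat_full A.isLattice) N N hN hN
    obtain ⟨m', F, hF⟩ := exists_family (T := Fin m)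
      (fun _ : {J // IsPolarizationOf Q A N J} => True)
      (fun J i => s.Equivalent (rat A.X A.L) J.1 (B i).1)
      (fun J J' => PolIso A A J.1 J'.1) (fun J _ => hB ⟨J.1, hcond _ J.2⟩)
      (fun J J' i h1 h2 => polIso_trans (polIso_of_equivalent hsE h1)
        (polIso_symm (polIso_of_equivalent hsE h2)))
    exact ⟨m', F, fun J => hF J trivial⟩
  · exact ⟨0, fun i => i.elim0, fun J => absurd ⟨J.1, J.2⟩ hne⟩

/-- **The automorphism group of a polarized** `ℤ`**-motive is finite.** -/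
theorem finite_aut (A : D.ZMotive) {J : Matrix (Fin (D.rank A.X)) (Fin (D.rank A.X)) ℚ}
    (hJ : Q.IsPolarization A.X J) :
    {f : Matrix (Fin (D.rank A.X)) (Fin (D.rank A.X)) ℚ | f ∈ D.Hom A.X A.X ∧
      (∀ (ℓ : ℕ) [Fact ℓ.Prime], ∀ v ∈ A.L ℓ, f.map (algebraMap ℚ ℚ_[ℓ]) *ᵥ v ∈ A.L ℓ) ∧
        f.transpose * J * f = J}.Finite := by
  obtain ⟨s, hsE, hsJ, hsC, hsK⟩ := exists_setup hJ
  obtain ⟨k, ω, hω⟩ := order_basis s.E (rat A.X A.L) (rat_fg A.isLattice) (rat_full A.isLattice)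
  have hpos : (J.map (algebraMap ℚ ℝ) * s.C).PosDef := by
    rw [hsC]
    exact hJ.posDef
  have hfin := H842.PD_finite (s.gram_pd ω hpos) (algebraMap ℚ ℝ (s.K₀ * J).trace)
  let Φ : (Fin k → ℤ) → Matrix (Fin (D.rank A.X)) (Fin (D.rank A.X)) ℚ := fun z =>
    (ω.equivFun.symm fun i => (z i : ℚ)).1
  refine (hfin.image Φ).subset ?_
  rintro f ⟨hf, hfL, hfJ⟩
  have hfE : f ∈ s.E := by
    rw [hsE]
    exact hf
  have hrat : ∀ v ∈ rat A.X A.L, f *ᵥ v ∈ rat A.X A.L := by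
    intro v hv ℓ _
    rw [toQl_mulVec]
    exact hfL ℓ _ (hv ℓ)
  choose z hz using (hω ⟨f, hfE⟩).mp hrat
  have hzf : (fun i => (z i : ℚ)) = ω.equivFun ⟨f, hfE⟩ := funext fun i => hz i
  refine ⟨z, ?_, ?_⟩
  · have h1 := s.qf_gram ω J 1 ⟨f, hfE⟩ ⟨f, hfE⟩
    rw [Matrix.mul_one] at h1
    have h2 : qf s.K₀ J f f = (s.K₀ * J).trace := by
      unfold qf
      rw [Matrix.mul_assoc, Matrix.mul_assoc, ← Matrix.mul_assoc f.transpose, hfJ]
    change qf s.K₀ J f f = _ at h1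
    rw [h2, ← hzf] at h1
    change (fun i => (z i : ℝ)) ⬝ᵥ ((s.gram ω J 1).map (algebraMap ℚ ℝ) *ᵥ
      (fun i => (z i : ℝ))) ≤ algebraMap ℚ ℝ (s.K₀ * J).trace
    rw [h1, Setup.dot_sum]
    unfold dotProduct Matrix.mulVec dotProduct
    rw [map_sum]
    refine le_of_eq (Finset.sum_congr rfl fun i _ => ?_)
    rw [map_mul, map_sum, Finset.mul_sum]
    refine Finset.sum_congr rfl fun j _ => ?_
    rw [map_mul, Matrix.map_apply, map_intCast, map_intCast]
    ring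
  · change (ω.equivFun.symm fun i => (z i : ℚ)).1 = f
    rw [hzf, LinearEquiv.symm_apply_apply]

end Pool.Agent.Q55.NN
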