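import Pool.Agent.Q55.SF.Back

/-! # Bases of lattices and of orders -/

set_option autoImplicit false

namespace Pool.Agent.Q55.NN

open Matrix Module Pool.Agent.Q55.SF

/-- a basis of a lattice -/
theorem lattice_basis {n : ℕ} (L : AddSubgroup (Fin n → ℚ)) (hL : L.FG) (hs : Full L) :
    ∃ c c' : Matrix (Fin n) (Fin n) ℚ, c * c' = 1 ∧ c' * c = 1 ∧
      ∀ v, v ∈ L ↔ ∀ i, ∃ z : ℤ, (z : ℚ) = (c *ᵥ v) i := by
  classical
  have hfin : Module.Finite ℤ L := (fin_iff L).mpr hL
  have htf : Module.IsTorsionFree ℤ L := inferInstance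
  let b := Module.Free.chooseBasis ℤ L
  have hli : LinearIndependent ℤ (fun j => (b j : Fin n → ℚ)) := by
    have h1 := b.linearIndependent
    exact h1.map' (AddSubgroup.subtype L).toIntLinearMap
      (LinearMap.ker_eq_bot.mpr Subtype.val_injective)
  have hli' : LinearIndependent ℚ (fun j => (b j : Fin n → ℚ)) :=
    (LinearIndependent.iff_fractionRing ℤ ℚ).mp hli
  have hsum : ∀ v (hv : v ∈ L), v = ∑ j, ((b.repr ⟨v, hv⟩ j : ℤ) : ℚ) • (b j : Fin n → ℚ) := by
    intro v hv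
    have h3 := congrArg (Subtype.val) (b.sum_repr ⟨v, hv⟩)
    rw [AddSubmonoidClass.coe_finsetSum] at h3
    change _ = v at h3
    conv_lhs => rw [← h3]
    refine Finset.sum_congr rfl fun j _ => ?_
    rw [Int.cast_smul_eq_zsmul]
    rfl
  have hspan : ⊤ ≤ Submodule.span ℚ (Set.range fun j => (b j : Fin n → ℚ)) := by
    intro v _
    obtain ⟨k, hk, hk'⟩ := hs v
    have h2 : k • v ∈ Submodule.span ℚ (Set.range fun j => (b j : Fin n → ℚ)) := by
      rw [hsum _ hk']
      exact Submodule.sum_mem _ fun j _ => Submodule.smul_mem _ _ (Submodule.subset_span ⟨j, rfl⟩)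
    have h5 := Submodule.smul_mem _ ((k : ℚ)⁻¹) h2
    rwa [← Nat.cast_smul_eq_nsmul ℚ, smul_smul, inv_mul_cancel₀ (Nat.cast_ne_zero.mpr hk.ne'),
      one_smul] at h5
  let B := Basis.mk hli' hspan
  have hcard : Fintype.card (Module.Free.ChooseBasisIndex ℤ L) = n := by
    have h1 := Module.finrank_eq_card_basis B
    rw [Module.finrank_fintype_fun_eq_card, Fintype.card_fin] at h1
    exact h1.symm
  let σ : Module.Free.ChooseBasisIndex ℤ L ≃ Fin n := Fintype.equivFinOfCardEq hcard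
  let B' := B.reindex σ
  have hB' : ∀ i, B' i = (b (σ.symm i) : Fin n → ℚ) := fun i => by
    rw [Basis.reindex_apply, Basis.mk_apply]
  let c : Matrix (Fin n) (Fin n) ℚ := LinearMap.toMatrix' B'.equivFun.toLinearMap
  let c' : Matrix (Fin n) (Fin n) ℚ := LinearMap.toMatrix' B'.equivFun.symm.toLinearMap
  have hc : ∀ v, c *ᵥ v = B'.equivFun v := fun v => LinearMap.toMatrix'_mulVec _ v
  refine ⟨c, c', ?_, ?_, fun v => ?_⟩
  · rw [← LinearMap.toMatrix'_comp, LinearEquiv.comp_coe, LinearEquiv.symm_trans_self]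
    exact LinearMap.toMatrix'_id
  · rw [← LinearMap.toMatrix'_comp, LinearEquiv.comp_coe, LinearEquiv.self_trans_symm]
    exact LinearMap.toMatrix'_id
  · rw [hc]
    constructor
    · intro hv i
      have h2 : B'.equivFun v = fun j => ((b.repr ⟨v, hv⟩ (σ.symm j) : ℤ) : ℚ) := by
        apply B'.equivFun.symm.injective
        rw [LinearEquiv.symm_apply_apply, Basis.equivFun_symm_apply]
        conv_lhs => rw [hsum v hv]
        rw [← Equiv.sum_comp σ.symm]
        exact Finset.sum_congr rfl fun j _ => by rw [hB']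
      rw [h2]
      exact ⟨_, rfl⟩
    · intro h
      rw [← B'.sum_equivFun v]
      refine AddSubgroup.sum_mem _ fun j _ => ?_
      obtain ⟨z, hz⟩ := h j
      rw [← hz, hB', Int.cast_smul_eq_zsmul]
      exact L.zsmul_mem (b (σ.symm j)).2 z

/-- a basis of the order of the elements of `E` that preserve the lattice `L` -/
theorem order_basis {n : ℕ} (E : Subalgebra ℚ (Matrix (Fin n) (Fin n) ℚ))
    (L : AddSubgroup (Fin n → ℚ)) (hL : L.FG) (hs : Full L) :
    ∃ (k : ℕ) (ω : Basis (Fin k) ℚ E), ∀ x : E,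
      (∀ v ∈ L, x.1 *ᵥ v ∈ L) ↔ ∀ i, ∃ z : ℤ, (z : ℚ) = ω.repr x i := by
  classical
  obtain ⟨c, c', h1, h2, h3⟩ := lattice_basis L hL hs
  have hmem : ∀ x : Matrix (Fin n) (Fin n) ℚ, (∀ v ∈ L, x *ᵥ v ∈ L) ↔
      ∃ Z : Matrix (Fin n) (Fin n) ℤ, Z.map (Int.cast : ℤ → ℚ) = c * x * c' := by
    intro x
    constructor
    · intro hx
      have h4 : ∀ i j, ∃ z : ℤ, (z : ℚ) = (c * x * c') i j := by
        intro i j
        have h5 : c' *ᵥ Pi.single j 1 ∈ L := by
          rw [h3]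
          intro l
          rw [mulVec_mulVec, h1, one_mulVec]
          by_cases hl : l = j
          · exact ⟨1, by rw [hl, Pi.single_eq_same, Int.cast_one]⟩
          · exact ⟨0, by rw [Pi.single_eq_of_ne hl, Int.cast_zero]⟩
        obtain ⟨z, hz⟩ := (h3 _).mp (hx _ h5) i
        refine ⟨z, ?_⟩
        rw [hz, mulVec_mulVec, mulVec_mulVec, Matrix.mulVec_single_one, Matrix.mul_assoc]
        rfl
      choose Z hZ using h4
      exact ⟨Matrix.of Z, by ext i j; exact hZ i j⟩
    · rintro ⟨Z, hZ⟩ v hv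
      choose w hw using (h3 v).mp hv
      rw [h3]
      intro i
      have h5 : c *ᵥ (x *ᵥ v) = (c * x * c') *ᵥ (c *ᵥ v) := by
        rw [mulVec_mulVec, mulVec_mulVec]
        congr 1
        rw [Matrix.mul_assoc (c * x), h2, Matrix.mul_one]
      refine ⟨∑ j, Z i j * w j, ?_⟩
      rw [h5, ← hZ]
      simp only [Matrix.mulVec, dotProduct, Matrix.map_apply, Int.cast_sum, Int.cast_mul, hw]
  -- coordinates of `E`
  let ρ := Module.finBasis ℚ E
  let O : AddSubgroup E :=
    { carrier := {x | ∀ v ∈ L, x.1 *ᵥ v ∈ L}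
      zero_mem' := fun v _ => by
        change (0 : Matrix (Fin n) (Fin n) ℚ) *ᵥ v ∈ L
        rw [zero_mulVec]
        exact L.zero_mem
      add_mem' := fun {x y} hx hy v hv => by
        change (x.1 + y.1) *ᵥ v ∈ L
        rw [add_mulVec]
        exact L.add_mem (hx v hv) (hy v hv)
      neg_mem' := fun {x} hx v hv => by
        change (-x.1) *ᵥ v ∈ L
        rw [neg_mulVec]
        exact L.neg_mem (hx v hv) }
  let O' : AddSubgroup (Fin (finrank ℚ E) → ℚ) := O.map ρ.equivFun.toLinearMap.toAddMonoidHom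
  have hO'mem : ∀ y, y ∈ O' ↔ ρ.equivFun.symm y ∈ O := by
    intro y
    constructor
    · rintro ⟨x, hx, rfl⟩
      change ρ.equivFun.symm (ρ.equivFun x) ∈ O
      rw [LinearEquiv.symm_apply_apply]
      exact hx
    · intro h
      exact ⟨_, h, ρ.equivFun.apply_symm_apply y⟩
  let F : (Fin (finrank ℚ E) → ℚ) →+ Matrix (Fin n) (Fin n) ℚ :=
    { toFun := fun y => c * (ρ.equivFun.symm y).1 * c'
      map_zero' := by
        rw [map_zero]
        change c * (0 : Matrix (Fin n) (Fin n) ℚ) * c' = 0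
        rw [Matrix.mul_zero, Matrix.zero_mul]
      map_add' := fun y y' => by
        rw [map_add]
        change c * ((ρ.equivFun.symm y).1 + (ρ.equivFun.symm y').1) * c' = _
        rw [Matrix.mul_add, Matrix.add_mul] }
  have hFinj : Function.Injective F := by
    intro y y' h
    have h4 : c * (ρ.equivFun.symm y).1 * c' = c * (ρ.equivFun.symm y').1 * c' := h
    have h5 : ∀ A : Matrix (Fin n) (Fin n) ℚ, c' * (c * A * c') * c = A := by
      intro A
      rw [← Matrix.mul_assoc, ← Matrix.mul_assoc, h2, Matrix.one_mul, Matrix.mul_assoc, h2,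
        Matrix.mul_one]
    have h6 : (ρ.equivFun.symm y).1 = (ρ.equivFun.symm y').1 := by
      rw [← h5 (ρ.equivFun.symm y).1, h4, h5]
    exact ρ.equivFun.symm.injective (Subtype.ext h6)
  let I : Matrix (Fin n) (Fin n) ℤ →+ Matrix (Fin n) (Fin n) ℚ :=
    { toFun := fun Z => Z.map (Int.cast : ℤ → ℚ)
      map_zero' := Matrix.map_zero _ Int.cast_zero
      map_add' := fun Z Z' => Matrix.map_add _ (fun a b => Int.cast_add a b) Z Z' }
  have hO'fg : O'.FG := by
    refine fg_of_map O' I.range (fg_range' I) F hFinj fun y hy => ?_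
    obtain ⟨Z, hZ⟩ := (hmem _).mp ((hO'mem y).mp hy)
    exact ⟨Z, hZ⟩
  have hO'full : Full O' := by
    intro y
    obtain ⟨d, hd, A, hA⟩ := exists_den (c * (ρ.equivFun.symm y).1 * c')
    refine ⟨d, hd, (hO'mem _).mpr ((hmem _).mpr ⟨A, ?_⟩)⟩
    have h4 : A.map (Int.cast : ℤ → ℚ) = (d : ℚ) • (c * (ρ.equivFun.symm y).1 * c') := by
      rw [← hA]
      rfl
    rw [h4, map_nsmul]
    change _ = c * (d • (ρ.equivFun.symm y).1) * c'
    rw [← Nat.cast_smul_eq_nsmul ℚ, Matrix.mul_smul, Matrix.smul_mul]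
  obtain ⟨g, g', h4, h5, h6⟩ := lattice_basis O' hO'fg hO'full
  let e : (Fin (finrank ℚ E) → ℚ) ≃ₗ[ℚ] (Fin (finrank ℚ E) → ℚ) :=
    LinearEquiv.ofLinear g.mulVecLin g'.mulVecLin
      (by rw [← Matrix.mulVecLin_mul, h4, Matrix.mulVecLin_one])
      (by rw [← Matrix.mulVecLin_mul, h5, Matrix.mulVecLin_one])
  refine ⟨finrank ℚ E, Basis.ofEquivFun (ρ.equivFun.trans e), fun x => ?_⟩
  have h7 : (∀ v ∈ L, x.1 *ᵥ v ∈ L) ↔ ρ.equivFun x ∈ O' := by
    rw [hO'mem, LinearEquiv.symm_apply_apply]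
    rfl
  rw [h7, h6]
  exact Iff.rfl

end Pool.Agent.Q55.NN
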