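import Mathlib

/-! # Positivity of `tr (P xᵀ S x)` -/

set_option autoImplicit false

namespace Pool.Agent.Q55.NN

open Matrix

variable {n : ℕ}

/-- `tr (Rᵀ R xᵀ S x)` as a sum of values of the form `S` -/
theorem trace_eq (R S x : Matrix (Fin n) (Fin n) ℝ) :
    (R.transpose * R * x.transpose * S * x).trace =
      ∑ i, (fun a => (x * R.transpose) a i) ⬝ᵥ S *ᵥ (fun a => (x * R.transpose) a i) := by
  have h1 : (R.transpose * R * x.transpose * S * x).trace =
      ((x * R.transpose).transpose * S * (x * R.transpose)).trace := by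
    rw [Matrix.transpose_mul, Matrix.transpose_transpose]
    have h2 : R.transpose * R * x.transpose * S * x =
        R.transpose * (R * x.transpose * S * x) := by simp only [Matrix.mul_assoc]
    have h3 : R * x.transpose * S * (x * R.transpose) =
        (R * x.transpose * S * x) * R.transpose := by simp only [Matrix.mul_assoc]
    rw [h2, h3, Matrix.trace_mul_comm]
  rw [h1]
  unfold Matrix.trace
  refine Finset.sum_congr rfl fun i _ => ?_
  rw [Matrix.diag_apply, Matrix.mul_assoc, Matrix.mul_apply]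
  unfold dotProduct
  refine Finset.sum_congr rfl fun a _ => ?_
  rw [Matrix.transpose_apply]
  congr 1

/-- the columns of a matrix are zero -/
theorem eq_zero_of_cols {m : ℕ} (A : Matrix (Fin n) (Fin m) ℝ) (h : ∀ i, (fun a => A a i) = 0) :
    A = 0 := by
  ext a i
  exact congrFun (h i) a

theorem pos_nonneg {S : Matrix (Fin n) (Fin n) ℝ} (hS : S.PosDef) (v : Fin n → ℝ) :
    0 ≤ v ⬝ᵥ S *ᵥ v := by
  have h := hS.posSemidef.dotProduct_mulVec_nonneg v
  rwa [star_trivial] at h

theorem pos_zero {S : Matrix (Fin n) (Fin n) ℝ} (hS : S.PosDef) (v : Fin n → ℝ)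
    (h : v ⬝ᵥ S *ᵥ v = 0) : v = 0 := by
  by_contra hv
  have h1 := hS.dotProduct_mulVec_pos hv
  rw [star_trivial, h] at h1
  exact lt_irrefl _ h1

theorem trace_nonneg {S : Matrix (Fin n) (Fin n) ℝ} (hS : S.PosDef)
    (R x : Matrix (Fin n) (Fin n) ℝ) :
    0 ≤ (R.transpose * R * x.transpose * S * x).trace := by
  rw [trace_eq]
  exact Finset.sum_nonneg fun i _ => pos_nonneg hS _

theorem trace_zero {S : Matrix (Fin n) (Fin n) ℝ} (hS : S.PosDef)
    (R R' x : Matrix (Fin n) (Fin n) ℝ) (hR : R' * R = 1)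
    (h : (R.transpose * R * x.transpose * S * x).trace = 0) : x = 0 := by
  rw [trace_eq] at h
  have h1 := (Finset.sum_eq_zero_iff_of_nonneg fun i _ => pos_nonneg hS _).mp h
  have h2 : x * R.transpose = 0 := eq_zero_of_cols _ fun i =>
    pos_zero hS _ (h1 i (Finset.mem_univ i))
  have h3 : R.transpose * R'.transpose = 1 := by
    rw [← Matrix.transpose_mul, hR, Matrix.transpose_one]
  calc x = x * (R.transpose * R'.transpose) := by rw [h3, Matrix.mul_one]
    _ = 0 := by rw [← Matrix.mul_assoc, h2, Matrix.zero_mul]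

/-- a bound for a nonnegative form -/
theorem form_bound (G : Matrix (Fin n) (Fin n) ℝ) (hG : ∀ v : Fin n → ℝ, 0 ≤ v ⬝ᵥ G *ᵥ v)
    (v : Fin n → ℝ) : v ⬝ᵥ G *ᵥ v ≤ (∑ b, |v b|) ^ 2 * G.trace := by
  classical
  have hdiag : ∀ a, 0 ≤ G a a := by
    intro a
    have h := hG (Pi.single a 1)
    rwa [single_dotProduct, one_mul, Matrix.mulVec_single_one] at h
  have hpm : ∀ a b (s t : ℝ), 0 ≤ s * s * G a a + s * t * (G a b + G b a) + t * t * G b b := by
    intro a b s t
    have h := hG (s • Pi.single a 1 + t • Pi.single b 1)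
    rw [mulVec_add, mulVec_smul, mulVec_smul, add_dotProduct, dotProduct_add, dotProduct_add,
      smul_dotProduct, smul_dotProduct, smul_dotProduct, smul_dotProduct, dotProduct_smul,
      dotProduct_smul, dotProduct_smul, dotProduct_smul, single_dotProduct, single_dotProduct,
      single_dotProduct, single_dotProduct, Matrix.mulVec_single_one,
      Matrix.mulVec_single_one] at h
    simp only [one_mul, smul_eq_mul, Matrix.col_apply] at h
    nlinarith [h]
  have hsum : v ⬝ᵥ G *ᵥ v = ∑ a, ∑ b, v a * v b * ((G a b + G b a) / 2) := by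
    have h1 : v ⬝ᵥ G *ᵥ v = ∑ a, ∑ b, v a * v b * G a b := by
      unfold dotProduct Matrix.mulVec dotProduct
      refine Finset.sum_congr rfl fun a _ => ?_
      rw [Finset.mul_sum]
      exact Finset.sum_congr rfl fun b _ => by ring
    have h2 : ∑ a, ∑ b, v a * v b * G a b = ∑ a, ∑ b, v a * v b * G b a := by
      rw [Finset.sum_comm]
      exact Finset.sum_congr rfl fun a _ => Finset.sum_congr rfl fun b _ => by ring
    have h3 : ∑ a, ∑ b, v a * v b * ((G a b + G b a) / 2) =
        (∑ a, ∑ b, v a * v b * G a b + ∑ a, ∑ b, v a * v b * G b a) / 2 := by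
      rw [← Finset.sum_add_distrib, Finset.sum_div]
      refine Finset.sum_congr rfl fun a _ => ?_
      rw [← Finset.sum_add_distrib, Finset.sum_div]
      exact Finset.sum_congr rfl fun b _ => by ring
    rw [h3, ← h2, h1]
    ring
  have hterm : ∀ a b, v a * v b * ((G a b + G b a) / 2) ≤
      |v a| * |v b| * ((G a a + G b b) / 2) := by
    intro a b
    have h1 := hpm a b 1 1
    have h2 := hpm a b 1 (-1)
    have h3 : |(G a b + G b a) / 2| ≤ (G a a + G b b) / 2 := abs_le.mpr ⟨by linarith, by linarith⟩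
    calc v a * v b * ((G a b + G b a) / 2) ≤ |v a * v b * ((G a b + G b a) / 2)| := le_abs_self _
      _ = |v a| * |v b| * |(G a b + G b a) / 2| := by rw [abs_mul, abs_mul]
      _ ≤ _ := mul_le_mul_of_nonneg_left h3 (by positivity)
  have hle : ∀ a, |v a| ≤ ∑ b, |v b| := fun a =>
    Finset.single_le_sum (f := fun b => |v b|) (fun _ _ => abs_nonneg _) (Finset.mem_univ a)
  have hs0 : 0 ≤ ∑ b, |v b| := Finset.sum_nonneg fun _ _ => abs_nonneg _
  rw [hsum]
  calc ∑ a, ∑ b, v a * v b * ((G a b + G b a) / 2)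
      ≤ ∑ a, ∑ b, |v a| * |v b| * ((G a a + G b b) / 2) :=
        Finset.sum_le_sum fun a _ => Finset.sum_le_sum fun b _ => hterm a b
    _ = (∑ b, |v b|) * ∑ a, |v a| * G a a := by
        have h1 : ∀ a, ∑ b, |v a| * |v b| * ((G a a + G b b) / 2) =
            (|v a| * G a a) * (∑ b, |v b|) / 2 + |v a| * (∑ b, |v b| * G b b) / 2 := by
          intro a
          rw [Finset.mul_sum, Finset.mul_sum, Finset.sum_div, Finset.sum_div,
            ← Finset.sum_add_distrib]
          exact Finset.sum_congr rfl fun b _ => by ring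
        rw [Finset.sum_congr rfl fun a _ => h1 a, Finset.sum_add_distrib]
        have h2 : ∑ a, |v a| * G a a * (∑ b, |v b|) / 2 =
            (∑ b, |v b|) * (∑ a, |v a| * G a a) / 2 := by
          rw [mul_comm (∑ b, |v b|), Finset.sum_mul, Finset.sum_div]
        have h3 : ∑ a, |v a| * (∑ b, |v b| * G b b) / 2 =
            (∑ b, |v b|) * (∑ a, |v a| * G a a) / 2 := by
          rw [Finset.sum_mul, Finset.sum_div]
        rw [h2, h3]
        ring
    _ ≤ (∑ b, |v b|) * ∑ a, (∑ b, |v b|) * G a a :=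
        mul_le_mul_of_nonneg_left (Finset.sum_le_sum fun a _ =>
          mul_le_mul_of_nonneg_right (hle a) (hdiag a)) hs0
    _ = (∑ b, |v b|) ^ 2 * G.trace := by
        unfold Matrix.trace
        rw [← Finset.mul_sum]
        simp only [Matrix.diag_apply]
        ring

/-- right multiplication by `w` is bounded, uniformly in `S` -/
theorem trace_mul_bound (R R' w : Matrix (Fin n) (Fin n) ℝ) (hR : R * R' = 1) (hR' : R' * R = 1) :
    ∃ c : ℝ, 0 ≤ c ∧ ∀ S : Matrix (Fin n) (Fin n) ℝ, S.PosDef → ∀ x : Matrix (Fin n) (Fin n) ℝ,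
      (R.transpose * R * (x * w).transpose * S * (x * w)).trace ≤
        c * (R.transpose * R * x.transpose * S * x).trace := by
  set T : Matrix (Fin n) (Fin n) ℝ := R'.transpose * w * R.transpose with hT
  have hT1 : ∀ x : Matrix (Fin n) (Fin n) ℝ, (x * w) * R.transpose = (x * R.transpose) * T := by
    intro x
    have h3 : R.transpose * R'.transpose = 1 := by
      rw [← Matrix.transpose_mul, hR', Matrix.transpose_one]
    rw [hT]
    calc (x * w) * R.transpose = x * (1 * w) * R.transpose := by rw [Matrix.one_mul]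
      _ = x * ((R.transpose * R'.transpose) * w) * R.transpose := by rw [h3]
      _ = _ := by simp only [Matrix.mul_assoc]
  refine ⟨∑ i, (∑ b, |T b i|) ^ 2, by positivity, fun S hS x => ?_⟩
  rw [trace_eq, trace_eq]
  set Y := x * R.transpose with hY
  set G := Y.transpose * S * Y with hG
  have hGv : ∀ v : Fin n → ℝ, v ⬝ᵥ G *ᵥ v = (Y *ᵥ v) ⬝ᵥ S *ᵥ (Y *ᵥ v) := by
    intro v
    rw [hG, ← mulVec_mulVec, ← mulVec_mulVec, Matrix.dotProduct_mulVec v Y.transpose,
      Matrix.vecMul_transpose]
  have hcol : ∀ i, (fun a => (Y * T) a i) = Y *ᵥ (fun b => T b i) := by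
    intro i
    funext a
    rw [Matrix.mul_apply]
    rfl
  have hsum : ∑ i, (fun a => Y a i) ⬝ᵥ S *ᵥ (fun a => Y a i) = G.trace := by
    unfold Matrix.trace
    refine Finset.sum_congr rfl fun i _ => ?_
    rw [Matrix.diag_apply, hG, Matrix.mul_assoc, Matrix.mul_apply]
    unfold dotProduct
    refine Finset.sum_congr rfl fun a _ => ?_
    rw [Matrix.transpose_apply]
    congr 1
  rw [hsum, hT1, ← hY, Finset.sum_mul]
  refine Finset.sum_le_sum fun i _ => ?_
  rw [hcol, ← hGv]
  exact form_bound G (fun v => by rw [hGv]; exact pos_nonneg hS _) _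

end Pool.Agent.Q55.NN
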