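import Pool.Agent.Q55.NN.Red
import Pool.Agent.Q55.NN.Pos
import Pool.Agent.Q55.NN.Order

/-! # The trace forms `tr (K xᵀ J y)` -/

set_option autoImplicit false

namespace Pool.Agent.Q55.NN

open Matrix Module Pool.Agent.Q55.SF H842

variable {n : ℕ}

section general

variable {A : Type} [CommRing A]

/-- the form `tr (K xᵀ J y)` -/
def qf (K J x y : Matrix (Fin n) (Fin n) A) : A := (K * x.transpose * J * y).trace

theorem qf_sum {ι κ : Type} [Fintype ι] [Fintype κ] (K J : Matrix (Fin n) (Fin n) A) (a : ι → A)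
    (x : ι → Matrix (Fin n) (Fin n) A) (b : κ → A) (y : κ → Matrix (Fin n) (Fin n) A) :
    qf K J (∑ i, a i • x i) (∑ j, b j • y j) = ∑ i, ∑ j, a i * b j * qf K J (x i) (y j) := by
  unfold qf
  rw [transpose_sum, Matrix.mul_sum, Matrix.mul_sum, Matrix.trace_sum, Finset.sum_comm]
  refine Finset.sum_congr rfl fun j _ => ?_
  rw [Matrix.sum_mul, Matrix.sum_mul, Matrix.trace_sum]
  refine Finset.sum_congr rfl fun i _ => ?_
  rw [transpose_smul]
  simp only [Matrix.mul_smul, Matrix.smul_mul, trace_smul, smul_eq_mul]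
  ring

theorem qf_add_left (K J x x' y : Matrix (Fin n) (Fin n) A) :
    qf K J (x + x') y = qf K J x y + qf K J x' y := by
  unfold qf
  rw [transpose_add, Matrix.mul_add, Matrix.add_mul, Matrix.add_mul, Matrix.trace_add]

theorem qf_add_right (K J x y y' : Matrix (Fin n) (Fin n) A) :
    qf K J x (y + y') = qf K J x y + qf K J x y' := by
  unfold qf
  rw [Matrix.mul_add, Matrix.trace_add]

theorem qf_sub_right (K J x y y' : Matrix (Fin n) (Fin n) A) :
    qf K J x (y - y') = qf K J x y - qf K J x y' := by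
  unfold qf
  rw [Matrix.mul_sub, Matrix.trace_sub]

theorem qf_neg_left (K J x y : Matrix (Fin n) (Fin n) A) :
    qf K J (-x) y = -qf K J x y := by
  unfold qf
  rw [transpose_neg, Matrix.mul_neg, Matrix.neg_mul, Matrix.neg_mul, Matrix.trace_neg]

theorem qf_neg_right (K J x y : Matrix (Fin n) (Fin n) A) :
    qf K J x (-y) = -qf K J x y := by
  unfold qf
  rw [Matrix.mul_neg, Matrix.trace_neg]

theorem qf_symm (K J x y : Matrix (Fin n) (Fin n) A) (hK : K.transpose = K)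
    (hJ : J.transpose = J) : qf K J x y = qf K J y x := by
  unfold qf
  rw [← Matrix.trace_transpose, transpose_mul, transpose_mul, transpose_mul, transpose_transpose,
    hK, hJ]
  rw [show y.transpose * (J * (x * K)) = (y.transpose * J * x) * K by
    simp only [Matrix.mul_assoc], Matrix.trace_mul_comm]
  simp only [Matrix.mul_assoc]

theorem qf_smul_right (K J x y : Matrix (Fin n) (Fin n) A) (c : A) :
    qf K J x (c • y) = c * qf K J x y := by
  unfold qf
  rw [Matrix.mul_smul, trace_smul, smul_eq_mul]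

theorem qf_smul_mid (K J x y : Matrix (Fin n) (Fin n) A) (c : A) :
    qf K (c • J) x y = c * qf K J x y := by
  unfold qf
  rw [Matrix.mul_smul, Matrix.smul_mul, trace_smul, smul_eq_mul]

end general

theorem qf_map (K J x y : Matrix (Fin n) (Fin n) ℚ) :
    algebraMap ℚ ℝ (qf K J x y) = qf (K.map (algebraMap ℚ ℝ)) (J.map (algebraMap ℚ ℝ))
      (x.map (algebraMap ℚ ℝ)) (y.map (algebraMap ℚ ℝ)) := by
  unfold qf
  have h : (K.map (algebraMap ℚ ℝ)) * (x.map (algebraMap ℚ ℝ)).transpose *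
      (J.map (algebraMap ℚ ℝ)) * (y.map (algebraMap ℚ ℝ)) =
      (K * x.transpose * J * y).map (algebraMap ℚ ℝ) := by
    rw [Matrix.map_mul, Matrix.map_mul, Matrix.map_mul, ← transpose_map]
  rw [h]
  unfold Matrix.trace
  rw [map_sum]
  rfl

open scoped MatrixOrder ComplexOrder Matrix.Norms.L2Operator in
theorem exists_sq {P : Matrix (Fin n) (Fin n) ℝ} (hP : P.PosSemidef) :
    ∃ R : Matrix (Fin n) (Fin n) ℝ, P = R.transpose * R := by
  obtain ⟨B, hB⟩ := CStarAlgebra.nonneg_iff_eq_star_mul_self.mp hP.nonneg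
  refine ⟨B, ?_⟩
  rw [hB, Matrix.star_eq_conjTranspose, Matrix.conjTranspose_eq_transpose_of_trivial]

theorem exists_root {S : Matrix (Fin n) (Fin n) ℝ} (hS : S.PosDef) :
    ∃ R R' : Matrix (Fin n) (Fin n) ℝ, R * R' = 1 ∧ R' * R = 1 ∧ S * (R.transpose * R) = 1 := by
  obtain ⟨R, hR⟩ := exists_sq hS.inv.posSemidef
  have h1 : S * S⁻¹ = 1 := Matrix.mul_nonsing_inv S hS.det_pos.ne'.isUnit
  have h2 : S * (R.transpose * R) = 1 := by
    rw [← hR, h1]
  have h3 : (S * R.transpose) * R = 1 := by rw [Matrix.mul_assoc, h2]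
  exact ⟨R, S * R.transpose, mul_eq_one_comm.mp h3, h3, h2⟩

/-- the algebra with the positive involution -/
structure Setup (n : ℕ) where
  E : Subalgebra ℚ (Matrix (Fin n) (Fin n) ℚ)
  J₀ : Matrix (Fin n) (Fin n) ℚ
  K₀ : Matrix (Fin n) (Fin n) ℚ
  hKJ : K₀ * J₀ = 1
  hJK : J₀ * K₀ = 1
  adj : ∀ x ∈ E, K₀ * x.transpose * J₀ ∈ E
  C : Matrix (Fin n) (Fin n) ℝ
  comm : ∀ x ∈ E, x.map (algebraMap ℚ ℝ) * C = C * x.map (algebraMap ℚ ℝ)
  pos : (J₀.map (algebraMap ℚ ℝ) * C).PosDef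

namespace Setup

variable (s : Setup n)

theorem exists_R : ∃ R R' : Matrix (Fin n) (Fin n) ℝ, R * R' = 1 ∧ R' * R = 1 ∧
    s.K₀.map (algebraMap ℚ ℝ) = s.C * (R.transpose * R) := by
  obtain ⟨R, R', h1, h2, h3⟩ := exists_root s.pos
  refine ⟨R, R', h1, h2, ?_⟩
  have h4 : s.K₀.map (algebraMap ℚ ℝ) * s.J₀.map (algebraMap ℚ ℝ) = 1 := by
    rw [← Matrix.map_mul, s.hKJ, Matrix.map_one _ (map_zero _) (map_one _)]
  calc s.K₀.map (algebraMap ℚ ℝ) = s.K₀.map (algebraMap ℚ ℝ) *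
      (s.J₀.map (algebraMap ℚ ℝ) * s.C * (R.transpose * R)) := by rw [h3, Matrix.mul_one]
    _ = (s.K₀.map (algebraMap ℚ ℝ) * s.J₀.map (algebraMap ℚ ℝ)) * s.C * (R.transpose * R) := by
      simp only [Matrix.mul_assoc]
    _ = _ := by rw [h4, Matrix.one_mul]

/-- the real form -/
theorem qf_real {R : Matrix (Fin n) (Fin n) ℝ}
    (hR : s.K₀.map (algebraMap ℚ ℝ) = s.C * (R.transpose * R)) (J x y : Matrix (Fin n) (Fin n) ℝ)
    (hy : y * s.C = s.C * y) :
    qf (s.K₀.map (algebraMap ℚ ℝ)) J x y = qf (R.transpose * R) (J * s.C) x y := by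
  unfold qf
  rw [hR]
  have h1 : s.C * (R.transpose * R) * x.transpose * J * y =
      s.C * ((R.transpose * R) * x.transpose * J * y) := by simp only [Matrix.mul_assoc]
  have h2 : (R.transpose * R) * x.transpose * (J * s.C) * y =
      ((R.transpose * R) * x.transpose * J * y) * s.C := by
    rw [Matrix.mul_assoc _ y s.C, hy]
    simp only [Matrix.mul_assoc]
  rw [h1, h2, Matrix.trace_mul_comm]

theorem qf_eq_zero {J : Matrix (Fin n) (Fin n) ℚ} (hJ : (J.map (algebraMap ℚ ℝ) * s.C).PosDef)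
    {x : Matrix (Fin n) (Fin n) ℚ} (hx : x ∈ s.E) (h : qf s.K₀ J x x = 0) : x = 0 := by
  obtain ⟨R, R', h1, h2, h3⟩ := s.exists_R
  have h4 := qf_map s.K₀ J x x
  rw [h, map_zero, s.qf_real h3 _ _ _ (s.comm x hx)] at h4
  have h5 := trace_zero hJ R R' _ h2 h4.symm
  ext i j
  have h6 := congrFun (congrFun h5 i) j
  rw [Matrix.map_apply, Matrix.zero_apply, map_eq_zero] at h6
  rw [h6, Matrix.zero_apply]

/-- the conditions on the form `J` -/
structure Cond (L : AddSubgroup (Fin n → ℚ)) (c₁ c₂ : ℕ) (J : Matrix (Fin n) (Fin n) ℚ) : Prop where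
  mem : s.K₀ * J ∈ s.E
  pos : (J.map (algebraMap ℚ ℝ) * s.C).PosDef
  fwd : ∀ v ∈ L, c₁ • ((s.K₀ * J) *ᵥ v) ∈ L
  bwd : ∃ K, K * J = 1 ∧ J * K = 1 ∧ K * s.J₀ ∈ s.E ∧ ∀ v ∈ L, c₂ • ((K * s.J₀) *ᵥ v) ∈ L

/-- the matrix of `tr (K₀ xᵀ J y w)` in the basis `ω` -/
noncomputable def gram {k : ℕ} (ω : Basis (Fin k) ℚ s.E) (J w : Matrix (Fin n) (Fin n) ℚ) :
    Matrix (Fin k) (Fin k) ℚ := Matrix.of fun i j => qf s.K₀ J (ω i).1 ((ω j).1 * w)

theorem coe_sum {k : ℕ} (ω : Basis (Fin k) ℚ s.E) (x : s.E) :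
    x.1 = ∑ i, ω.equivFun x i • (ω i).1 := by
  have h := congrArg Subtype.val (ω.sum_equivFun x)
  rw [← h, AddSubmonoidClass.coe_finsetSum]
  exact Finset.sum_congr rfl fun i _ => rfl

theorem qf_gram {k : ℕ} (ω : Basis (Fin k) ℚ s.E) (J w : Matrix (Fin n) (Fin n) ℚ) (x y : s.E) :
    qf s.K₀ J x.1 (y.1 * w) = ω.equivFun x ⬝ᵥ s.gram ω J w *ᵥ ω.equivFun y := by
  have h1 : y.1 * w = ∑ j, ω.equivFun y j • ((ω j).1 * w) := by
    conv_lhs => rw [s.coe_sum ω y]
    rw [Matrix.sum_mul]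
    exact Finset.sum_congr rfl fun j _ => Matrix.smul_mul _ _ _
  rw [h1]
  conv_lhs => rw [s.coe_sum ω x]
  rw [qf_sum]
  unfold dotProduct Matrix.mulVec dotProduct
  refine Finset.sum_congr rfl fun i _ => ?_
  rw [Finset.mul_sum]
  refine Finset.sum_congr rfl fun j _ => ?_
  change _ = ω.equivFun x i * (qf s.K₀ J (ω i).1 ((ω j).1 * w) * ω.equivFun y j)
  ring

end Setup

end Pool.Agent.Q55.NN
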