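import Pool.Agent.H842R2.Siegel

/-! # Reduced positive definite forms with bounded determinant are bounded -/

set_option autoImplicit false

namespace Pool.Agent.Q55.NN

open Matrix H842

theorem diag_of_sieg {d : ℕ} {D : Fin d → ℝ} {U : Matrix (Fin d) (Fin d) ℝ}
    (h1 : ∀ i, U i i = 1) (h2 : ∀ i j, j < i → U i j = 0) :
    (Uᵀ * diagonal D * U).det = ∏ i, D i := by
  have hU : U.det = 1 := by
    rw [Matrix.det_of_isUpperTriangular (fun i j h => h2 i j h)]
    exact Finset.prod_eq_one fun i _ => h1 i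
  rw [Matrix.det_mul, Matrix.det_mul, Matrix.det_transpose, hU, Matrix.det_diagonal, one_mul,
    mul_one]

theorem entry_of_sieg {d : ℕ} (D : Fin d → ℝ) (U : Matrix (Fin d) (Fin d) ℝ) (i j : Fin d) :
    (Uᵀ * diagonal D * U) i j = ∑ k, U k i * D k * U k j := by
  rw [Matrix.mul_apply]
  refine Finset.sum_congr rfl fun k _ => ?_
  rw [Matrix.mul_diagonal, Matrix.transpose_apply]

/-- reduced forms with bounded determinant and diagonal bounded from below are bounded -/
theorem reduced_bounded (d : ℕ) (δ M : ℝ) (hδ : 0 < δ) : ∃ B : ℝ, 0 ≤ B ∧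
    ∀ T : Matrix (Fin d) (Fin d) ℝ, Sieg d T → (∀ i, δ ≤ T i i) → T.det ≤ M →
      ∀ i j, |T i j| ≤ B := by
  rcases Nat.eq_zero_or_pos d with h0 | h0
  · subst h0
    exact ⟨0, le_refl _, fun T _ _ _ i => i.elim0⟩
  set η : ℝ := δ / 2 ^ d with hη
  have hη0 : 0 < η := by positivity
  refine ⟨∑ _k : Fin d, |M| / η ^ (d - 1), by positivity, fun T hT hdiag hdet i j => ?_⟩
  obtain ⟨D, U, hD, hU1, hU2, hU3, hD2, rfl⟩ := hT
  have hT00 : (Uᵀ * diagonal D * U) ⟨0, h0⟩ ⟨0, h0⟩ = D ⟨0, h0⟩ := by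
    rw [entry_of_sieg, Finset.sum_eq_single ⟨0, h0⟩]
    · rw [hU1, one_mul, mul_one]
    · intro b _ hb
      have hb' : (⟨0, h0⟩ : Fin d) < b := lt_of_le_of_ne (Nat.zero_le _) (Ne.symm hb)
      rw [hU2 b _ hb', zero_mul, zero_mul]
    · intro h
      exact absurd (Finset.mem_univ _) h
  have hlow : ∀ k, η ≤ D k := by
    intro k
    have h1 := chain 2 one_le_two D hD ⟨0, h0⟩ k (Nat.zero_le _) (fun a b _ _ hab => hD2 a b hab)
    have h2 := hdiag ⟨0, h0⟩
    rw [hT00] at h2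
    rw [hη, div_le_iff₀ (by positivity)]
    linarith
  rw [diag_of_sieg hU1 hU2] at hdet
  have hup : ∀ k, D k ≤ |M| / η ^ (d - 1) := by
    intro k
    rw [le_div_iff₀ (by positivity)]
    have h1 : D k * ∏ l ∈ Finset.univ.erase k, D l = ∏ l, D l :=
      Finset.mul_prod_erase _ _ (Finset.mem_univ k)
    have h2 : η ^ (d - 1) ≤ ∏ l ∈ Finset.univ.erase k, D l := by
      have h3 : η ^ (d - 1) = ∏ _l ∈ (Finset.univ.erase k : Finset (Fin d)), η := by
        rw [Finset.prod_const, Finset.card_erase_of_mem (Finset.mem_univ k), Finset.card_univ,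
          Fintype.card_fin]
      rw [h3]
      exact Finset.prod_le_prod (fun _ _ => hη0.le) fun l _ => hlow l
    calc D k * η ^ (d - 1) ≤ D k * ∏ l ∈ Finset.univ.erase k, D l :=
          mul_le_mul_of_nonneg_left h2 (hD k).le
      _ = ∏ l, D l := h1
      _ ≤ M := hdet
      _ ≤ |M| := le_abs_self M
  rw [entry_of_sieg]
  refine (Finset.abs_sum_le_sum_abs _ _).trans (Finset.sum_le_sum fun k _ => ?_)
  rw [abs_mul, abs_mul, abs_of_pos (hD k)]
  calc |U k i| * D k * |U k j| ≤ 1 * D k * 1 :=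
        mul_le_mul (mul_le_mul_of_nonneg_right (hU3 k i) (hD k).le) (hU3 k j) (abs_nonneg _)
          (by rw [one_mul]; exact (hD k).le)
    _ = D k := by ring
    _ ≤ _ := hup k

/-- reduction -/
theorem exists_reduced {d : ℕ} {S : Matrix (Fin d) (Fin d) ℝ} (hS : PD S) :
    ∃ g : (Matrix (Fin d) (Fin d) ℤ)ˣ, PD (act S g) ∧ Sieg d (act S g) := by
  obtain ⟨g, hg⟩ := red_exists d S hS
  exact ⟨g, hS.act g, red_sieg d _ (hS.act g).1 hg⟩

theorem det_act {d : ℕ} (S : Matrix (Fin d) (Fin d) ℝ) (g : (Matrix (Fin d) (Fin d) ℤ)ˣ) :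
    (act S g).det = S.det := by
  unfold act
  have h1 : (toR (g : Matrix (Fin d) (Fin d) ℤ)).det * (toR (g : Matrix (Fin d) (Fin d) ℤ)).det =
      1 := by
    have h2 : (toR (g : Matrix (Fin d) (Fin d) ℤ)).det =
        (((g : Matrix (Fin d) (Fin d) ℤ).det : ℤ) : ℝ) := by
      rw [toR_eq]
      exact (RingHom.map_det (Int.castRingHom ℝ) _).symm
    have h3 : IsUnit (g : Matrix (Fin d) (Fin d) ℤ).det :=
      (Matrix.isUnit_iff_isUnit_det _).mp g.isUnit
    rw [h2]
    rcases Int.isUnit_iff.mp h3 with h | h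
    · rw [h]
      norm_num
    · rw [h]
      norm_num
  rw [Matrix.det_mul, Matrix.det_mul, Matrix.det_transpose, mul_right_comm, h1, one_mul]

end Pool.Agent.Q55.NN
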